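import Pool.Agent.helper84.G4.SpecW

/-!
# g4:G4FW, the multiplicative Theorem G: parameters
-/

set_option autoImplicit false

open Complex Metric Set Filter Topology MeasureTheory
open MPS (om)
open PPS (pre TT fd)
open XPS (Df er dens tau)
open Pool.Agent.helper16.Multibrot

noncomputable section

namespace GR

/-- `0` is a hyperbolic parameter. -/
lemma G4FW_zero (n : ℕ) (hn : 2 ≤ n) : (0 : ℂ) ∈ hyperbolic n := by
  refine ⟨0, 1, one_pos, ?_, ?_⟩
  · simp
    omega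
  · have h1 := (hasDerivAt_pow n (0 : ℂ)).add_const 0
    have h2 : ((n : ℂ) * 0 ^ (n - 1)) = 0 := by
      rw [zero_pow (by omega)]; simp
    rw [h2] at h1
    rw [Function.iterate_one, h1.deriv]
    simp

/-- the factors are positive. -/
lemma G4FW_fac (K W x : ℝ) (hK : 1 ≤ K) (hW : 1 ≤ W) (hx : 1 ≤ x) : 0 < K * W * (1 + Real.log x) / x := by
  have h1 : 0 ≤ Real.log x := Real.log_nonneg hx
  have h2 : 0 < K := by linarith
  have h3 : 0 < W := by linarith
  positivity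

theorem G4FW (hNAT : NAT_stmt) (hMIS : MIS_stmt) (hBDM : BDM_stmt) (hKAP : KAP_stmt)
    (Wt : ℕ → ℂ → ℕ → ℝ) (n₀ : ℕ) (hn₀ : 2 ≤ n₀) (hWt : ∀ n c p, 1 ≤ Wt n c p)
    (hMUW : MUW Wt n₀) : G4W Wt n₀ := by
  obtain ⟨K, hK, hmul⟩ := hMUW
  refine ⟨K, hK, ?_⟩
  intro n hn c hc P x hP
  have hn2 : 2 ≤ n := by omega
  obtain ⟨-, -, -, -, -, -, -, -, -, -, hnat⟩ := hNAT n c hn2
  have hfac : ∀ p ∈ P, 0 < K * Wt n c p * (1 + Real.log (x p)) / x p := fun p hp =>
    G4FW_fac K (Wt n c p) (x p) hK (hWt n c p) (hP p hp).2.1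
  have hprod : 0 < ∏ p ∈ P, (K * Wt n c p * (1 + Real.log (x p)) / x p) := Finset.prod_pos hfac
  set r := Metric.infDist c (hyperbolic n) with hrdef
  rcases lt_or_ge 0 r with hr | hr
  swap
  · linarith
  have hdis : Disjoint (ball c r) (hyperbolic n) := disjoint_ball_infDist
  have hZ0 : Z n c 0 = 0 := rfl
  have hZ1 : Z n c 1 = c := by
    simp [Z]
    omega
  have hne : ∀ j, 1 ≤ j → Z n c j ≠ 0 := by
    intro j hj h
    have := hMIS n c r hn2 hdis c (mem_ball_self hr) 0 j (by omega)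
    rw [hZ0] at this
    exact this h.symm
  have hle : ∀ j, ‖Z n c j‖ ≤ 2 := hBDM n c hn2 hc
  have hc2 : ‖c‖ ≤ 2 := by
    have := hle 1
    rwa [hZ1] at this
  have hr2 : r ≤ 2 := by
    have := infDist_le_dist_of_mem (x := c) (G4FW_zero n hn2)
    rw [dist_zero_right] at this
    linarith
  have hM : 1 ≤ 4000 / r := by
    rw [le_div_iff₀ hr]
    linarith
  have h1 := hmul n hn c (4000 / r) hc2 hle hne hM (by
    intro p q hR hX
    obtain ⟨hR0, hR2, hX1, hRX, hA0, -, -⟩ := hnat p q hR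
    have hq1 := hR.q1
    have hqp := hR.qp
    obtain ⟨-, hk2⟩ := hKAP n c r p q hr hdis hR
    have hZp : 0 < ‖Z n c p‖ := norm_pos_iff.2 (hne p (by omega))
    have hAp : 0 < ‖A n c p‖ := norm_pos_iff.2 (hA0 p (by omega) (by omega))
    have hL : 0 ≤ Real.log (X n c p q) := Real.log_nonneg hX1.le
    unfold ww
    rw [div_le_iff₀ (by positivity)]
    calc ‖S n c p - lam n c p q * S n c q‖ ≤ _ := hk2
      _ = _ := by ring) P x hP
  calc r = r * 1 := (mul_one r).symm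
    _ ≤ r * (4000 / r * ∏ p ∈ P, (K * Wt n c p * (1 + Real.log (x p)) / x p)) :=
      mul_le_mul_of_nonneg_left h1 hr.le
    _ = 4000 * ∏ p ∈ P, (K * Wt n c p * (1 + Real.log (x p)) / x p) := by
      field_simp

end GR
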