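import Pool.Agent.helper84.G4.Spec

/-!
# Project g4: the multiplicative form of Theorem G with a weight `Wt n c p` in the General Core Theorem

`Wt = 1`, `n₀ = 3` is `GCO_stmt` (proved). The quadratic case (helper33, helper69) has a weight which depends on `p`. Everything after the General Core Theorem is formal.
-/

set_option autoImplicit false

open Complex Metric Set Filter Topology MeasureTheory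
open MPS (om)
open PPS (pre TT fd)
open XPS (Df er dens tau)
open Pool.Agent.helper16.Multibrot

noncomputable section

namespace GR

/-- the General Core Theorem with the weight `Wt`, for all `n ≥ n₀`. -/
def GCW (Wt : ℕ → ℂ → ℕ → ℝ) (n₀ : ℕ) : Prop := ∃ K : ℝ, 1 ≤ K ∧ ∀ n : ℕ, n₀ ≤ n → ∀ (c : ℂ) (p q : ℕ) (x : ℕ → ℂ) (ε : ℝ),
  Ret n c p q → K * Wt n c p ≤ X n c p q → 0 ≤ ε → (∀ j ∈ Finset.Icc 1 p, ‖x j - 1‖ ≤ 1 / K) →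
  ∫⁻ z in ball (0 : ℂ) 4, ENNReal.ofReal ‖er (fp n c) (Bx x n c p) z‖ ≤ ENNReal.ofReal ε →
  R n c q / ‖A n c p‖ ≤ K * Wt n c p * ε

/-- the Core Theorem with the weight `Wt`. -/
def CRW (Wt : ℕ → ℂ → ℕ → ℝ) (n₀ : ℕ) : Prop := ∃ K : ℝ, 1 ≤ K ∧ ∀ n : ℕ, n₀ ≤ n → ∀ (c : ℂ) (p q : ℕ), Ret n c p q →
  X n c p q ≤ K * Wt n c p * max 1 (ww n c p q) * (1 + Real.log (X n c p q))

/-- the Core Theorem with the earlier pair `(j, i)`, with the weight `Wt`. -/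
def CSW (Wt : ℕ → ℂ → ℕ → ℝ) (n₀ : ℕ) : Prop := ∃ K : ℝ, 1 ≤ K ∧ ∀ n : ℕ, n₀ ≤ n → ∀ (c : ℂ) (p q j i : ℕ), Ret n c p q →
  Ret n c j i → j ≤ q → 2 ≤ X n c j i → 0 < ww n c j i →
  X n c p q ≤ K * Wt n c p * (1 + ww n c p q / ww n c j i) * (1 + Real.log (X n c p q))

/-- the multiplicative inequality. -/
def MUW (Wt : ℕ → ℂ → ℕ → ℝ) (n₀ : ℕ) : Prop := ∃ K : ℝ, 1 ≤ K ∧ ∀ n : ℕ, n₀ ≤ n → ∀ (c : ℂ) (M : ℝ), ‖c‖ ≤ 2 →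
  (∀ j, ‖Z n c j‖ ≤ 2) → (∀ j, 1 ≤ j → Z n c j ≠ 0) → 1 ≤ M →
  (∀ p q, Ret n c p q → 2 ≤ X n c p q → ww n c p q ≤ M) →
  ∀ (P : Finset ℕ) (x : ℕ → ℝ), (∀ p ∈ P, 2 ≤ p ∧ 1 ≤ x p ∧ ∀ j, 1 ≤ j → j < p → x p * ‖Z n c p‖ ≤ ‖Z n c j‖) →
  1 ≤ M * ∏ p ∈ P, (K * Wt n c p * (1 + Real.log (x p)) / x p)

/-- the multiplicative Theorem G. -/
def G4W (Wt : ℕ → ℂ → ℕ → ℝ) (n₀ : ℕ) : Prop := ∃ K : ℝ, 1 ≤ K ∧ ∀ n : ℕ, n₀ ≤ n → ∀ c ∈ multibrot n, ∀ (P : Finset ℕ) (x : ℕ → ℝ),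
  (∀ p ∈ P, 2 ≤ p ∧ 1 ≤ x p ∧ ∀ j, 1 ≤ j → j < p → x p * ‖Z n c p‖ ≤ ‖Z n c j‖) →
  Metric.infDist c (hyperbolic n) ≤ 4000 * ∏ p ∈ P, (K * Wt n c p * (1 + Real.log (x p)) / x p)

/-- the multiplicative Theorem G for line fields. -/
def GL4W (Wt : ℕ → ℂ → ℕ → ℝ) (n₀ : ℕ) : Prop := ∃ K : ℝ, 1 ≤ K ∧ ∀ n : ℕ, n₀ ≤ n → ∀ (c : ℂ) (μ : ℂ → ℂ),
  Pool.Agent.helper98.ILF.IsInvariantLineField (fun z : ℂ => z ^ n + c) μ → ∀ (P : Finset ℕ) (x : ℕ → ℝ),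
  (∀ p ∈ P, 2 ≤ p ∧ 1 ≤ x p ∧ ∀ j, 1 ≤ j → j < p → x p * ‖Z n c p‖ ≤ ‖Z n c j‖) →
  ‖∫ z : ℂ, μ z / (z - c)‖ ≤ K * ∏ p ∈ P, (K * Wt n c p * (1 + Real.log (x p)) / x p)

end GR
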