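import Pool.Agent.helper84.G4.Spec

/-!
# g4:AZ, Koebe for the tower at all levels
-/

set_option autoImplicit false

open Complex Metric Set Filter Topology MeasureTheory
open MPS (om)
open PPS (pre TT fd)
open XPS (Df er dens tau)

noncomputable section

namespace GR

theorem AZ (hNAT : NAT_stmt) (hTOP : TOP_stmt) (hKNV : KNV_stmt) : AZ_stmt := by
  intro C n c p q G hK hR hT hX l hl1 hlp
  have hC1 : 1 ≤ C := hK.1
  obtain ⟨-, -, -, -, -, -, -, -, -, -, hN⟩ := hNAT n c hR.hn
  obtain ⟨hRpos, -, hX1, hRX, hA, -, -⟩ := hN p q hR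
  obtain ⟨-, hinj, -, -, hder⟩ := hTOP n c p q G hR hT
  have hp1 : 1 ≤ p := hR.q1.trans hR.qp.le
  have hApos : 0 < ‖A n c p‖ := norm_pos_iff.2 (hA p hp1 (by omega))
  have hXpos : 0 < X n c p q := by linarith
  have hZp0 : 0 ≤ ‖Z n c p‖ := norm_nonneg _
  have hZp : ‖Z n c p‖ ≤ R n c q / 2 := by
    rw [le_div_iff₀ (by norm_num), hRX, mul_comm]
    apply mul_le_mul_of_nonneg_right _ hZp0
    linarith
  have hm : p - l < p := by omega
  have hpl : p - (p - l) = l := by omega
  have hne : ∀ w ∈ ball (0 : ℂ) (R n c q), G (p - l) w ≠ 0 := by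
    intro w hw
    have h4 := (hT.rel (p - l - 1) (by omega) w hw).2
    have h5 : p - l - 1 + 1 = p - l := by omega
    rwa [h5] at h4
  have h6 := (hKNV C (R n c q) (G (p - l)) hK hRpos (hT.diff _ hm) (hinj _ hm) hne).1 (Z n c p) (by
    rw [mem_ball_zero_iff]
    linarith)
  rw [hT.val _ hm, hder _ hm, hpl, norm_div] at h6
  have h8 : ‖A n c l‖ / ‖A n c p‖ * (R n c q / 2) ≤ C * ‖Z n c l‖ := by
    refine le_trans ?_ h6
    apply mul_le_mul_of_nonneg_left _ (by positivity)
    linarith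
  rw [div_mul_eq_mul_div, div_le_iff₀ hApos] at h8
  linarith

end GR
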