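import Pool.Agent.helper84.G4.Spec
import Pool.Agent.helper74.MP.MA

/-!
# g4:CHNX, the chain inequality (copy of gr:CHN)
-/

set_option autoImplicit false

open Complex Metric Set Filter Topology MeasureTheory
open MPS (om)
open PPS (pre TT fd)
open XPS (Df er dens tau)

noncomputable section

namespace GR

theorem CHNX_ofReal_sum {s : Finset ℕ} (g : ℕ → ℝ) :
    ENNReal.ofReal (∑ q ∈ s, g q) ≤ ∑ q ∈ s, ENNReal.ofReal (g q) := by
  classical
  induction s using Finset.induction_on with
  | empty => simp
  | insert a s ha ih =>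
    rw [Finset.sum_insert ha, Finset.sum_insert ha]
    refine ENNReal.ofReal_add_le.trans ?_
    gcongr

theorem CHNX_tel (t : ℕ → ℂ) (m : ℕ) :
    ‖t 0 - t m‖ ≤ ∑ q ∈ Finset.Icc 1 m, ‖t (q - 1) - t q‖ := by
  induction m with
  | zero => simp
  | succ m ih =>
    rw [Finset.sum_Icc_succ_top (by omega)]
    have h1 : t 0 - t (m + 1) = (t 0 - t m) + (t m - t (m + 1)) := by ring
    rw [h1]
    refine (norm_add_le _ _).trans ?_
    rw [Nat.add_sub_cancel]
    gcongr

theorem CHNX (hNAT : NAT_stmt) (hTOP : TOP_stmt) (hDIS : DIS_stmt) (hLVG : XPS.LVG_stmt) :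
    CHNX_stmt := by
  intro C n c p q G b E hKQ hRet hTow hX hmDf hmer hEg m₀ hm₀
  have hn := hRet.hn
  obtain ⟨hev, hfd, hdeg, -, -, -, -, -, -, -, hR0⟩ := hNAT n c hn
  obtain ⟨hRpos, -⟩ := hR0 p q hRet
  obtain ⟨-, hinj, hmaps, -, -⟩ := hTOP n c p q G hRet hTow
  have hC1 : 1 ≤ C := hKQ.1
  have hdis := hDIS C n c p q G hKQ hRet hTow hX
  set Om : Set ℂ := ball (0 : ℂ) (R n c q / (8 * C)) with hOm
  have hOmR : Om ⊆ ball (0 : ℂ) (R n c q) := by
    apply ball_subset_ball
    rw [div_le_iff₀ (by positivity)]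
    nlinarith
  -- pointwise inequality
  have hpt : ∀ w ∈ Om, ‖tau b G m₀ w‖ + ‖tau b G 0 w - tau b G m₀ w‖
      - ‖tau b G 0 w‖ ≤ ∑ k ∈ Finset.range m₀, dens (fp n c) b (G k) w := by
    intro w hw
    have hL := (hLVG (fp n c) b G (ball (0 : ℂ) (R n c q)) m₀ (by rw [hdeg]; omega)
      isOpen_ball (fun k hk => hTow.diff k (by omega)) (by
        intro k hk v hv
        obtain ⟨h1, h2⟩ := hTow.rel k (by omega) v hv
        refine ⟨by rw [hev, h1], ?_⟩
        rw [hfd]
        exact mul_ne_zero (Nat.cast_ne_zero.mpr (by omega)) (pow_ne_zero _ h2)) w (hOmR hw)).1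
    have hT := CHNX_tel (fun k => tau b G k w) m₀
    have hT' : ‖tau b G 0 w - tau b G m₀ w‖ ≤
        ∑ k ∈ Finset.Icc 1 m₀, XPS.lev b G k w := hT
    linarith
  calc ∫⁻ w in Om, ENNReal.ofReal
        (‖tau b G m₀ w‖ + ‖tau b G 0 w - tau b G m₀ w‖
          - ‖tau b G 0 w‖)
      ≤ ∫⁻ w in Om, ∑ k ∈ Finset.range m₀,
          ENNReal.ofReal (dens (fp n c) b (G k) w) := by
        refine setLIntegral_mono' measurableSet_ball fun w hw => ?_
        exact (ENNReal.ofReal_le_ofReal (hpt w hw)).trans (CHNX_ofReal_sum _)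
    _ = ∑ k ∈ Finset.range m₀, ∫⁻ w in Om,
          ENNReal.ofReal (dens (fp n c) b (G k) w) := by
        rw [lintegral_finsetSum']
        intro k hk
        have hk' : k < p := by
          have := Finset.mem_range.mp hk
          omega
        have hG : AEMeasurable (G k) (volume.restrict Om) :=
          ((hTow.diff k hk').mono hOmR).continuousOn.aemeasurable measurableSet_ball
        have h1 : AEMeasurable (fun w => Df (fp n c) b (G k w)) (volume.restrict Om) :=
          hmDf.comp_aemeasurable hG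
        have h2 : AEMeasurable (fun w => er (fp n c) b (G k w)) (volume.restrict Om) :=
          hmer.comp_aemeasurable hG
        have h3 : AEMeasurable (fun w => deriv (G k) w) (volume.restrict Om) :=
          (measurable_deriv (G k)).aemeasurable
        exact ((h1.add (h2.norm.const_mul 2)).mul (h3.norm.pow_const 2)).ennreal_ofReal
    _ = ∑ k ∈ Finset.range m₀, ∫⁻ z in G k '' Om,
          ENNReal.ofReal (Df (fp n c) b z + 2 * ‖er (fp n c) b z‖) := by
        refine Finset.sum_congr rfl fun k hk => ?_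
        have hk' : k < p := by
          have := Finset.mem_range.mp hk
          omega
        exact MPS.MA_cov isOpen_ball ((hTow.diff k hk').mono hOmR) ((hinj k hk').mono hOmR)
          (fun z => Df (fp n c) b z + 2 * ‖er (fp n c) b z‖)
    _ ≤ (1 : ℕ) * ∫⁻ z in ball (0 : ℂ) 4,
          ENNReal.ofReal (Df (fp n c) b z + 2 * ‖er (fp n c) b z‖) := by
        refine MPS.MA_mult ?_ measurableSet_ball ?_ ?_
          (hmDf.add (hmer.norm.const_mul 2)).ennreal_ofReal
        · intro k hk
          exact MPS.MA_meas isOpen_ball ((hTow.diff k (by omega)).mono hOmR)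
            ((hinj k (by omega)).mono hOmR)
        · intro k hk
          exact ((hmaps k (by omega)).mono_left hOmR).image_subset
        · intro z F hF
          rw [Finset.card_le_one]
          intro a ha b hb
          by_contra hab
          obtain ⟨ha1, ha2⟩ := hF a ha
          obtain ⟨hb1, hb2⟩ := hF b hb
          exact (Set.disjoint_left.mp (hdis a (by omega) b (by omega) hab)) ha2 hb2
    _ ≤ ENNReal.ofReal E := by
        rw [Nat.cast_one, one_mul]
        exact hEg

end GR
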