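import Pool.Agent.helper84.G4.SpecW

/-!
# g4:CORW, the Core Theorem with a weight, from the General Core Theorem
-/

set_option autoImplicit false

open Complex Metric Set Filter Topology MeasureTheory
open MPS (om)
open PPS (pre TT fd)
open XPS (Df er dens tau)

noncomputable section

namespace GR

theorem CORW (hKO1 : V3.KO1_stmt) (hNAT : NAT_stmt) (hTOW : TOW_stmt) (hCEL : CEL_stmt)
    (hERI : ERI_stmt) (Wt : ℕ → ℂ → ℕ → ℝ) (n₀ : ℕ) (hn₀ : 2 ≤ n₀) (hWt : ∀ n c p, 1 ≤ Wt n c p)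
    (hGCO : GCW Wt n₀) : CRW Wt n₀ := by
  obtain ⟨C, hC1, hC⟩ := hKO1
  have hKQ : KQ C := ⟨hC1, hC⟩
  obtain ⟨K, hK1, hcore⟩ := hGCO
  obtain ⟨CE, hCE, heri⟩ := hERI
  have hCpos : 0 < C := by linarith
  have hKpos : 0 < K := by linarith
  have hKCE : 0 < K * CE := by positivity
  have hCK : 0 < C * K := by positivity
  refine ⟨16 * C + 2 + K + 2 * C * K + K * CE, by linarith, ?_⟩
  intro n hn c p q hR
  have hn2 : 2 ≤ n := by omega
  have hW1 := hWt n c p
  set W : ℝ := Wt n c p with hW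
  obtain ⟨-, -, -, -, -, -, -, -, -, -, hnat⟩ := hNAT n c hn2
  obtain ⟨hR0, hR2, hX1, hRX, hA0, -, hxc⟩ := hnat p q hR
  have hq1 := hR.q1
  have hqp := hR.qp
  have hZp : 0 < ‖Z n c p‖ := norm_pos_iff.2 (hR.ne0 p (by omega) le_rfl)
  have hAp : 0 < ‖A n c p‖ := norm_pos_iff.2 (hA0 p (by omega) (by omega))
  have hL : 0 ≤ Real.log (X n c p q) := Real.log_nonneg hX1.le
  set κ : ℝ := max 1 (ww n c p q) with hκ
  have hκ1 : 1 ≤ κ := le_max_left _ _
  set L : ℝ := 1 + Real.log (X n c p q) with hLdef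
  have hL1 : 1 ≤ L := by linarith
  have hκL : 1 ≤ κ * L := one_le_mul_of_one_le_of_one_le hκ1 hL1
  have hWF : 1 ≤ W * (κ * L) := one_le_mul_of_one_le_of_one_le hW1 hκL
  have hgoal : ∀ t : ℝ, X n c p q ≤ t * (W * (κ * L)) → t ≤ 16 * C + 2 + K + 2 * C * K + K * CE →
      X n c p q ≤ (16 * C + 2 + K + 2 * C * K + K * CE) * W * κ * L := by
    intro t h1 h2
    calc X n c p q ≤ t * (W * (κ * L)) := h1
      _ ≤ (16 * C + 2 + K + 2 * C * K + K * CE) * (W * (κ * L)) :=
        mul_le_mul_of_nonneg_right h2 (by linarith)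
      _ = _ := by ring
  by_cases hsm : X n c p q ≤ (16 * C + 2 + K + 2 * C * K) * W
  · apply hgoal (16 * C + 2 + K + 2 * C * K) _ (by linarith)
    have h1 : W * 1 ≤ W * (κ * L) := mul_le_mul_of_nonneg_left hκL (by linarith)
    have h2 : (16 * C + 2 + K + 2 * C * K) * (W * 1) ≤ (16 * C + 2 + K + 2 * C * K) * (W * (κ * L)) :=
      mul_le_mul_of_nonneg_left h1 (by linarith)
    linarith
  rw [not_le] at hsm
  have h1 : (16 * C + 2 + K + 2 * C * K) * 1 ≤ (16 * C + 2 + K + 2 * C * K) * W :=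
    mul_le_mul_of_nonneg_left hW1 (by linarith)
  have hKW : K * W ≤ (16 * C + 2 + K + 2 * C * K) * W :=
    mul_le_mul_of_nonneg_right (by linarith) (by linarith)
  have hX16 : 16 * C ≤ X n c p q := by linarith
  have hXpos : 0 < X n c p q := by linarith
  obtain ⟨G, hG⟩ := hTOW n c p q hR
  obtain ⟨-, -, hlam⟩ := hCEL C n c p q G hKQ hR hG hX16
  have hB : B n c p q = Bx (xc n c p q) n c p := rfl
  have hS : ‖S n c p - lam n c p q * S n c q‖ ≤ κ * (‖Z n c p‖ / ‖A n c p‖) * L := by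
    have h1 : ‖S n c p - lam n c p q * S n c q‖ = ww n c p q * (‖Z n c p‖ / ‖A n c p‖) * L := by
      unfold ww
      rw [mul_assoc, div_mul_cancel₀]
      have : 0 < L := by linarith
      positivity
    rw [h1]
    have : 0 ≤ L := by linarith
    gcongr
    exact le_max_right _ _
  have heri' := heri n c p q κ hR (by linarith) hκ1 hS
  rw [hB] at heri'
  have hε0 : 0 ≤ CE * κ * (‖Z n c p‖ / ‖A n c p‖) * L := by
    have : 0 ≤ L := by linarith
    positivity
  have h2 := hcore n hn c p q (xc n c p q) (CE * κ * (‖Z n c p‖ / ‖A n c p‖) * L) hR (by linarith) hε0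
    (by
      intro j _
      refine (hxc j).trans (hlam.trans ?_)
      rw [div_le_div_iff₀ hXpos hKpos]
      linarith) heri'
  rw [hRX] at h2
  have h3 : X n c p q * (‖Z n c p‖ / ‖A n c p‖) ≤ K * CE * (W * (κ * L)) * (‖Z n c p‖ / ‖A n c p‖) := by
    calc X n c p q * (‖Z n c p‖ / ‖A n c p‖) = X n c p q * ‖Z n c p‖ / ‖A n c p‖ := by ring
      _ ≤ _ := h2
      _ = _ := by ring
  exact hgoal (K * CE) (le_of_mul_le_mul_right h3 (by positivity)) (by linarith)

end GR
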