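import Pool.Agent.helper84.G4.SpecW

/-!
# g4:CSW, the Core Theorem without the parameter term, with a weight
-/

set_option autoImplicit false

open Complex Metric Set Filter Topology MeasureTheory
open MPS (om)
open PPS (pre TT fd)
open XPS (Df er dens tau)

noncomputable section

namespace GR

theorem CSTW (hKO1 : V3.KO1_stmt) (hNAT : NAT_stmt) (hTOW : TOW_stmt) (hCEL : CEL_stmt) (hAZ : AZ_stmt)
    (hERI : ERI4_stmt) (Wt : ℕ → ℂ → ℕ → ℝ) (n₀ : ℕ) (hn₀ : 2 ≤ n₀) (hWt : ∀ n c p, 1 ≤ Wt n c p)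
    (hGCO : GCW Wt n₀) : CSW Wt n₀ := by
  obtain ⟨C, hC1, hC⟩ := hKO1
  have hKQ : KQ C := ⟨hC1, hC⟩
  obtain ⟨K, hK1, hcore⟩ := hGCO
  obtain ⟨CE, hCE, heri⟩ := hERI
  have hCpos : 0 < C := by linarith
  have hKpos : 0 < K := by linarith
  refine ⟨16 * C + 2 + K + 4 * C * K + K * CE, ?_, ?_⟩
  · have : 0 < K * CE := by positivity
    have : 0 < C * K := by positivity
    linarith
  intro n hn c p q j i hR hR' hjq hXj hwj
  have hn2 : 2 ≤ n := by omega
  have hW1 := hWt n c p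
  set W : ℝ := Wt n c p with hW
  obtain ⟨-, -, -, -, -, -, -, -, -, -, hnat⟩ := hNAT n c hn2
  obtain ⟨hR0, hR2, hX1, hRX, hA0, -, -⟩ := hnat p q hR
  have hq1 := hR.q1
  have hqp := hR.qp
  have hi1 := hR'.q1
  have hij := hR'.qp
  have hZp : 0 < ‖Z n c p‖ := norm_pos_iff.2 (hR.ne0 p (by omega) le_rfl)
  have hZj : 0 < ‖Z n c j‖ := norm_pos_iff.2 (hR.ne0 j (by omega) (by omega))
  have hZi : 0 < ‖Z n c i‖ := norm_pos_iff.2 (hR.ne0 i (by omega) (by omega))
  have hAp : 0 < ‖A n c p‖ := norm_pos_iff.2 (hA0 p (by omega) (by omega))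
  have hAj : 0 < ‖A n c j‖ := norm_pos_iff.2 (hA0 j (by omega) (by omega))
  have hAi : 0 < ‖A n c i‖ := norm_pos_iff.2 (hA0 i (by omega) (by omega))
  have hL : 0 ≤ Real.log (X n c p q) := Real.log_nonneg hX1.le
  have hLj : 0 ≤ Real.log (X n c j i) := Real.log_nonneg (by linarith)
  have hwp0 : 0 ≤ ww n c p q := by
    unfold ww
    positivity
  set ρ : ℝ := ww n c p q / ww n c j i with hρ
  have hρ0 : 0 ≤ ρ := by positivity
  set L : ℝ := 1 + Real.log (X n c p q) with hLdef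
  have hL1 : 1 ≤ L := by linarith
  set F : ℝ := (1 + ρ) * L with hF
  have hF1 : 1 ≤ F := by
    rw [hF]
    nlinarith
  have hWF1 : 1 ≤ W * F := one_le_mul_of_one_le_of_one_le hW1 hF1
  have hFWF : F ≤ W * F := le_mul_of_one_le_left (by linarith) hW1
  have hgoal : ∀ t : ℝ, X n c p q ≤ t * (W * F) → t ≤ 16 * C + 2 + K + 4 * C * K + K * CE →
      X n c p q ≤ (16 * C + 2 + K + 4 * C * K + K * CE) * W * (1 + ρ) * L := by
    intro t h1 h2
    calc X n c p q ≤ t * (W * F) := h1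
      _ ≤ (16 * C + 2 + K + 4 * C * K + K * CE) * (W * F) :=
        mul_le_mul_of_nonneg_right h2 (by linarith)
      _ = _ := by rw [hF]; ring
  have hKCE : 0 < K * CE := by positivity
  have hCK : 0 < C * K := by positivity
  by_cases hsm : X n c p q ≤ (16 * C + 2 + K) * W
  · apply hgoal (16 * C + 2 + K) _ (by linarith)
    have h1 : W * 1 ≤ W * F := mul_le_mul_of_nonneg_left hF1 (by linarith)
    have h2 : (16 * C + 2 + K) * (W * 1) ≤ (16 * C + 2 + K) * (W * F) :=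
      mul_le_mul_of_nonneg_left h1 (by linarith)
    linarith
  rw [not_le] at hsm
  have hsm' : 16 * C + 2 ≤ (16 * C + 2 + K) * W := by
    have : (16 * C + 2 + K) * 1 ≤ (16 * C + 2 + K) * W := mul_le_mul_of_nonneg_left hW1 (by linarith)
    linarith
  have hKW : K * W ≤ (16 * C + 2 + K) * W := mul_le_mul_of_nonneg_right (by linarith) (by linarith)
  have hX16 : 16 * C ≤ X n c p q := by linarith
  have hXpos : 0 < X n c p q := by linarith
  obtain ⟨G, hG⟩ := hTOW n c p q hR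
  obtain ⟨-, -, hlam⟩ := hCEL C n c p q G hKQ hR hG hX16
  have hazj := hAZ C n c p q G hKQ hR hG hX16 j (by omega) (by omega)
  have hazi := hAZ C n c p q G hKQ hR hG hX16 i (by omega) (by omega)
  -- the multiplier ν
  set s : ℂ := S n c p - lam n c p q * S n c q with hs
  set s' : ℂ := S n c j - lam n c j i * S n c i with hs'
  have hwj' : ‖s'‖ = ww n c j i * ((‖Z n c j‖ / ‖A n c j‖) * (1 + Real.log (X n c j i))) := by
    unfold ww
    rw [← hs', div_mul_cancel₀]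
    positivity
  have hwp' : ‖s‖ = ww n c p q * ((‖Z n c p‖ / ‖A n c p‖) * L) := by
    unfold ww
    rw [← hs, div_mul_cancel₀]
    have : 0 < L := by linarith
    positivity
  have hs'pos : 0 < ‖s'‖ := by
    rw [hwj']
    positivity
  have hs'0 : s' ≠ 0 := norm_pos_iff.1 hs'pos
  set ν : ℂ := s / s' with hν
  have hνs : ν * s' = s := by
    rw [hν, div_mul_cancel₀ _ hs'0]
  have hνn : ‖ν‖ * ((‖Z n c j‖ / ‖A n c j‖) * (1 + Real.log (X n c j i))) =
      ρ * ((‖Z n c p‖ / ‖A n c p‖) * L) := by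
    rw [hν, norm_div, hwj', hwp', hρ]
    have h1 : 1 + Real.log (X n c j i) ≠ 0 := by linarith
    field_simp
  have hνn' : ‖ν‖ * (‖Z n c j‖ / ‖A n c j‖) ≤ ρ * ((‖Z n c p‖ / ‖A n c p‖) * L) := by
    rw [← hνn]
    apply mul_le_mul_of_nonneg_left _ (norm_nonneg _)
    have : 0 ≤ ‖Z n c j‖ / ‖A n c j‖ := by positivity
    nlinarith
  -- the coefficients
  have hXe : 2 * C / X n c p q = 2 * C * ‖Z n c p‖ / R n c q := by
    rw [hRX]
    field_simp
  have hν1 : ‖ν‖ ≤ ρ * L * (2 * C / X n c p q) := by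
    rw [hXe]
    have h1 : ‖ν‖ * (‖Z n c j‖ / ‖A n c j‖) * (‖A n c j‖ / ‖Z n c j‖) = ‖ν‖ := by
      field_simp
    rw [← h1]
    calc ‖ν‖ * (‖Z n c j‖ / ‖A n c j‖) * (‖A n c j‖ / ‖Z n c j‖)
        ≤ ρ * ((‖Z n c p‖ / ‖A n c p‖) * L) * (‖A n c j‖ / ‖Z n c j‖) :=
          mul_le_mul_of_nonneg_right hνn' (by positivity)
      _ = ρ * L * ‖Z n c p‖ * ((‖A n c j‖ * R n c q) / (‖A n c p‖ * ‖Z n c j‖ * R n c q)) := by
          field_simp
      _ ≤ ρ * L * ‖Z n c p‖ * ((2 * C * ‖A n c p‖ * ‖Z n c j‖) / (‖A n c p‖ * ‖Z n c j‖ * R n c q)) := by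
          gcongr
      _ = ρ * L * (2 * C * ‖Z n c p‖ / R n c q) := by
          field_simp
  have hν2 : ‖ν * lam n c j i‖ ≤ ρ * L * (2 * C / X n c p q) := by
    rw [hXe]
    have h1 : ‖ν * lam n c j i‖ = ‖ν‖ * (‖Z n c j‖ / ‖A n c j‖) * (‖A n c i‖ / ‖Z n c i‖) := by
      unfold lam
      rw [norm_mul ν, norm_div (Z n c j * A n c i), norm_mul (Z n c j), norm_mul (Z n c i)]
      field_simp
    rw [h1]
    calc ‖ν‖ * (‖Z n c j‖ / ‖A n c j‖) * (‖A n c i‖ / ‖Z n c i‖)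
        ≤ ρ * ((‖Z n c p‖ / ‖A n c p‖) * L) * (‖A n c i‖ / ‖Z n c i‖) :=
          mul_le_mul_of_nonneg_right hνn' (by positivity)
      _ = ρ * L * ‖Z n c p‖ * ((‖A n c i‖ * R n c q) / (‖A n c p‖ * ‖Z n c i‖ * R n c q)) := by
          field_simp
      _ ≤ ρ * L * ‖Z n c p‖ * ((2 * C * ‖A n c p‖ * ‖Z n c i‖) / (‖A n c p‖ * ‖Z n c i‖ * R n c q)) := by
          gcongr
      _ = ρ * L * (2 * C * ‖Z n c p‖ / R n c q) := by
          field_simp
  set δ : ℝ := 2 * C / X n c p q * (1 + 2 * (ρ * L)) with hδ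
  have hx : ∀ l ∈ Finset.Icc 1 p, ‖x4 n c p q j i ν l - 1‖ ≤ δ := by
    intro l _
    have h1 : ‖(if l ≤ q then lam n c p q else 0 : ℂ)‖ ≤ 2 * C / X n c p q := by
      split_ifs
      · exact hlam
      · rw [norm_zero]; positivity
    have hρL : 0 ≤ ρ * L := by
      have : 0 ≤ L := by linarith
      positivity
    have h2 : ‖(if l ≤ j then ν else 0 : ℂ)‖ ≤ ρ * L * (2 * C / X n c p q) := by
      split_ifs
      · exact hν1
      · rw [norm_zero]; positivity
    have h3 : ‖(if l ≤ i then ν * lam n c j i else 0 : ℂ)‖ ≤ ρ * L * (2 * C / X n c p q) := by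
      split_ifs
      · exact hν2
      · rw [norm_zero]; positivity
    have h4 : x4 n c p q j i ν l - 1 = -(if l ≤ q then lam n c p q else 0 : ℂ) -
        (if l ≤ j then ν else 0 : ℂ) + (if l ≤ i then ν * lam n c j i else 0 : ℂ) := by
      unfold x4
      ring
    rw [h4]
    calc ‖-(if l ≤ q then lam n c p q else 0 : ℂ) - (if l ≤ j then ν else 0 : ℂ) +
          (if l ≤ i then ν * lam n c j i else 0 : ℂ)‖
        ≤ ‖-(if l ≤ q then lam n c p q else 0 : ℂ) - (if l ≤ j then ν else 0 : ℂ)‖ +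
          ‖(if l ≤ i then ν * lam n c j i else 0 : ℂ)‖ := norm_add_le _ _
      _ ≤ (‖-(if l ≤ q then lam n c p q else 0 : ℂ)‖ + ‖(if l ≤ j then ν else 0 : ℂ)‖) +
          ‖(if l ≤ i then ν * lam n c j i else 0 : ℂ)‖ := by
          gcongr
          exact norm_sub_le _ _
      _ ≤ (2 * C / X n c p q + ρ * L * (2 * C / X n c p q)) + ρ * L * (2 * C / X n c p q) := by
          rw [norm_neg]
          gcongr
      _ = δ := by rw [hδ]; ring
  by_cases hδK : δ ≤ 1 / K
  · -- the general core theorem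
    set ε : ℝ := CE * (‖Z n c p‖ / ‖A n c p‖ * (1 + Real.log (X n c p q)) +
      ‖ν‖ * (‖Z n c j‖ / ‖A n c j‖ * (1 + Real.log (X n c j i)))) with hε
    have hεe : ε = CE * F * (‖Z n c p‖ / ‖A n c p‖) := by
      rw [hε, hνn, ← hLdef, hF]
      ring
    have hε0 : 0 ≤ ε := by
      rw [hεe]
      have : 0 ≤ F := by linarith
      positivity
    have h1 := hcore n hn c p q (x4 n c p q j i ν) ε hR (by linarith) hε0
      (fun l hl => (hx l hl).trans hδK) (heri n c p q j i ν hR hR' hjq (by linarith) hXj hνs)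
    rw [hεe, hRX] at h1
    have h2 : X n c p q * (‖Z n c p‖ / ‖A n c p‖) ≤ K * CE * (W * F) * (‖Z n c p‖ / ‖A n c p‖) := by
      calc X n c p q * (‖Z n c p‖ / ‖A n c p‖) = X n c p q * ‖Z n c p‖ / ‖A n c p‖ := by ring
        _ ≤ _ := h1
        _ = _ := by ring
    have h3 := le_of_mul_le_mul_right h2 (by positivity)
    apply hgoal (K * CE) h3 (by linarith)
  · rw [not_le, hδ] at hδK
    have h1 : X n c p q < 2 * C * K * (1 + 2 * (ρ * L)) := by
      have h2 : 1 / K * (K * X n c p q) < 2 * C / X n c p q * (1 + 2 * (ρ * L)) * (K * X n c p q) :=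
        mul_lt_mul_of_pos_right hδK (by positivity)
      have e1 : 1 / K * (K * X n c p q) = X n c p q := by field_simp
      have e2 : 2 * C / X n c p q * (1 + 2 * (ρ * L)) * (K * X n c p q) =
          2 * C * K * (1 + 2 * (ρ * L)) := by field_simp
      rwa [e1, e2] at h2
    apply hgoal (4 * C * K) _ (by linarith)
    have h3 : 1 + 2 * (ρ * L) ≤ 2 * F := by
      rw [hF]
      nlinarith
    calc X n c p q ≤ 2 * C * K * (1 + 2 * (ρ * L)) := h1.le
      _ ≤ 2 * C * K * (2 * (W * F)) := mul_le_mul_of_nonneg_left (by linarith) (by positivity)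
      _ = 4 * C * K * (W * F) := by ring

end GR
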