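import Pool.Agent.helper84.G4.Spec

/-!
# g4:ERI4 (the integral of the error term; compare helper9/GR/ERI.lean)
-/

set_option autoImplicit false

open Complex Metric Set Filter Topology MeasureTheory
open MPS (om)
open PPS (pre TT fd)
open XPS (Df er dens tau)

noncomputable section

namespace GR

theorem ERI4_pt (hERX : ERX_stmt) (n : ℕ) (c : ℂ) (p q j i : ℕ) (ν : ℂ) (hR : Ret n c p q)
    (hR' : Ret n c j i) (hjq : j ≤ q)
    (hν : ν * (S n c j - lam n c j i * S n c i) = S n c p - lam n c p q * S n c q) (z : ℂ) (hz : z ≠ c)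
    (hzj : ∀ l, 1 ≤ l → l ≤ p + 1 → z ≠ Z n c l) :
    ‖er (fp n c) (Bx (x4 n c p q j i ν) n c p) z‖ ≤
      (‖Z n c p‖ / ‖A n c p‖ / n) * (‖Z n c q ^ n - Z n c p ^ n‖ /
        (‖z - c‖ * ‖z - c - Z n c p ^ n‖ * ‖z - c - Z n c q ^ n‖)) +
      (‖ν‖ * (‖Z n c j‖ / ‖A n c j‖) / n) * (‖Z n c i ^ n - Z n c j ^ n‖ /
        (‖z - c‖ * ‖z - c - Z n c j ^ n‖ * ‖z - c - Z n c i ^ n‖)) := by
  rw [hERX n c p q j i ν hR hR' hjq z hz hzj, hν, sub_self, zero_div, zero_add]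
  refine (norm_sub_le _ _).trans ?_
  apply add_le_add
  · rw [norm_mul, norm_div, norm_div, norm_mul, norm_mul, norm_mul, Complex.norm_natCast]
    apply le_of_eq
    rw [div_div, mul_comm (‖A n c p‖)]
  · rw [norm_mul, norm_mul, norm_div, norm_div, norm_mul, norm_mul, norm_mul, Complex.norm_natCast]
    apply le_of_eq
    have : ‖ν‖ * (‖Z n c j‖ / ‖A n c j‖) / n = ‖ν‖ * (‖Z n c j‖ / (n * ‖A n c j‖)) := by
      rw [mul_div_assoc, div_div, mul_comm (‖A n c j‖)]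
    rw [this]
    ring

theorem ERI4_ker (C₁ : ℝ) (hC₁ : 0 < C₁)
    (hK : ∀ a b : ℂ, a ≠ 0 → 2 * ‖a‖ ≤ ‖b‖ →
      ∫⁻ z : ℂ, ENNReal.ofReal (‖b - a‖ / (‖z‖ * ‖z - a‖ * ‖z - b‖)) ≤
        ENNReal.ofReal (C₁ * (1 + Real.log (‖b‖ / ‖a‖))))
    (n : ℕ) (c : ℂ) (p q : ℕ) (hR : Ret n c p q) (hX : 2 ≤ X n c p q) (r : ℝ) (hr0 : 0 ≤ r) :
    ∫⁻ z in ball (0 : ℂ) 4, ENNReal.ofReal ((r / n) * (‖Z n c q ^ n - Z n c p ^ n‖ /
        (‖z - c‖ * ‖z - c - Z n c p ^ n‖ * ‖z - c - Z n c q ^ n‖))) ≤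
      ENNReal.ofReal (C₁ * (r * (1 + Real.log (X n c p q)))) := by
  set a := Z n c p ^ n with ha
  set b := Z n c q ^ n with hb
  have hn0 : 0 < n := lt_of_lt_of_le (by norm_num) hR.hn
  have hn0' : (0 : ℝ) < n := by exact_mod_cast hn0
  have hn1' : (1 : ℝ) ≤ n := by exact_mod_cast hn0
  have hp1 : 1 ≤ p := hR.q1.trans hR.qp.le
  have hZp : Z n c p ≠ 0 := hR.ne0 p hp1 le_rfl
  have ha0 : a ≠ 0 := pow_ne_zero _ hZp
  have hlog : Real.log (‖b‖ / ‖a‖) = n * Real.log (X n c p q) := by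
    rw [ha, hb, norm_pow, norm_pow, ← div_pow, Real.log_pow]; rfl
  have hab : 2 * ‖a‖ ≤ ‖b‖ := by
    have h1 : ‖b‖ / ‖a‖ = X n c p q ^ n := by
      rw [ha, hb, norm_pow, norm_pow, ← div_pow]; rfl
    have h2 : (2 : ℝ) ≤ X n c p q ^ n := by
      calc (2 : ℝ) ≤ X n c p q := hX
        _ = X n c p q ^ 1 := (pow_one _).symm
        _ ≤ X n c p q ^ n := pow_le_pow_right₀ (by linarith) hn0
    rw [← h1, le_div_iff₀ (norm_pos_iff.2 ha0)] at h2
    exact h2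
  have hL0 : 0 ≤ Real.log (X n c p q) := Real.log_nonneg (by linarith)
  have hrn : 0 ≤ r / n := by positivity
  calc ∫⁻ z in ball (0 : ℂ) 4, ENNReal.ofReal ((r / n) * (‖b - a‖ /
      (‖z - c‖ * ‖z - c - a‖ * ‖z - c - b‖)))
      ≤ ∫⁻ z : ℂ, ENNReal.ofReal ((r / n) * (‖b - a‖ /
        (‖z - c‖ * ‖z - c - a‖ * ‖z - c - b‖))) := setLIntegral_le_lintegral _ _
    _ = ∫⁻ z : ℂ, ENNReal.ofReal (r / n) * ENNReal.ofReal (‖b - a‖ /
        (‖z - c‖ * ‖z - c - a‖ * ‖z - c - b‖)) := by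
        simp_rw [ENNReal.ofReal_mul hrn]
    _ = ENNReal.ofReal (r / n) * ∫⁻ z : ℂ, ENNReal.ofReal (‖b - a‖ /
        (‖z - c‖ * ‖z - c - a‖ * ‖z - c - b‖)) := by
        rw [lintegral_const_mul' _ _ ENNReal.ofReal_ne_top]
    _ = ENNReal.ofReal (r / n) * ∫⁻ z : ℂ, ENNReal.ofReal (‖b - a‖ /
        (‖z‖ * ‖z - a‖ * ‖z - b‖)) := by
        congr 1
        exact lintegral_sub_right_eq_self (fun z : ℂ => ENNReal.ofReal (‖b - a‖ /
          (‖z‖ * ‖z - a‖ * ‖z - b‖))) c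
    _ ≤ ENNReal.ofReal (r / n) * ENNReal.ofReal (C₁ * (1 + Real.log (‖b‖ / ‖a‖))) := by
        gcongr
        exact hK a b ha0 hab
    _ = ENNReal.ofReal ((r / n) * (C₁ * (1 + n * Real.log (X n c p q)))) := by
        rw [hlog, ← ENNReal.ofReal_mul hrn]
    _ ≤ ENNReal.ofReal (C₁ * (r * (1 + Real.log (X n c p q)))) := by
        apply ENNReal.ofReal_le_ofReal
        rw [div_mul_eq_mul_div, div_le_iff₀ hn0']
        have : C₁ * (1 + n * Real.log (X n c p q)) ≤ C₁ * (1 + Real.log (X n c p q)) * n := by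
          rw [mul_assoc]
          apply mul_le_mul_of_nonneg_left _ hC₁.le
          nlinarith
        calc r * (C₁ * (1 + n * Real.log (X n c p q)))
            ≤ r * (C₁ * (1 + Real.log (X n c p q)) * n) := by gcongr
          _ = C₁ * (r * (1 + Real.log (X n c p q))) * n := by ring

/-- ERI4: the integral of the error. -/
theorem ERI4 (hERX : ERX_stmt) (hKER : KER_stmt) : ERI4_stmt := by
  obtain ⟨C₁, hC₁, hK⟩ := hKER
  refine ⟨C₁, hC₁, fun n c p q j i ν hR hR' hjq hX hX' hν => ?_⟩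
  have h1 := ERI4_ker C₁ hC₁ hK n c p q hR hX (‖Z n c p‖ / ‖A n c p‖) (by positivity)
  have h2 := ERI4_ker C₁ hC₁ hK n c j i hR' hX' (‖ν‖ * (‖Z n c j‖ / ‖A n c j‖)) (by positivity)
  have hlX : 0 ≤ Real.log (X n c p q) := Real.log_nonneg (by linarith)
  have hlX' : 0 ≤ Real.log (X n c j i) := Real.log_nonneg (by linarith)
  have hfin : ({c} ∪ (fun j => Z n c j) '' (Finset.Icc 1 (p + 1) : Set ℕ)).Finite :=
    (Set.finite_singleton c).union ((Finset.finite_toSet _).image _)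
  set F : ℂ → ℝ := fun z => (‖Z n c p‖ / ‖A n c p‖ / n) * (‖Z n c q ^ n - Z n c p ^ n‖ /
        (‖z - c‖ * ‖z - c - Z n c p ^ n‖ * ‖z - c - Z n c q ^ n‖)) with hF
  set F' : ℂ → ℝ := fun z => (‖ν‖ * (‖Z n c j‖ / ‖A n c j‖) / n) * (‖Z n c i ^ n - Z n c j ^ n‖ /
        (‖z - c‖ * ‖z - c - Z n c j ^ n‖ * ‖z - c - Z n c i ^ n‖)) with hF'
  have hae : ∀ᵐ z ∂(volume.restrict (ball (0 : ℂ) 4)),
      ENNReal.ofReal ‖er (fp n c) (Bx (x4 n c p q j i ν) n c p) z‖ ≤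
      ENNReal.ofReal (F z) + ENNReal.ofReal (F' z) := by
    apply ae_restrict_of_ae
    filter_upwards [hfin.countable.ae_notMem volume] with z hz
    rw [← ENNReal.ofReal_add (by rw [hF]; positivity) (by rw [hF']; positivity)]
    apply ENNReal.ofReal_le_ofReal
    apply ERI4_pt hERX n c p q j i ν hR hR' hjq hν z
    · intro h; exact hz (Or.inl h)
    · intro j h1 h2 h
      exact hz (Or.inr ⟨j, by simp; omega, h.symm⟩)
  calc ∫⁻ z in ball (0 : ℂ) 4, ENNReal.ofReal ‖er (fp n c) (Bx (x4 n c p q j i ν) n c p) z‖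
      ≤ ∫⁻ z in ball (0 : ℂ) 4, (ENNReal.ofReal (F z) + ENNReal.ofReal (F' z)) :=
        lintegral_mono_ae hae
    _ = (∫⁻ z in ball (0 : ℂ) 4, ENNReal.ofReal (F z)) +
        ∫⁻ z in ball (0 : ℂ) 4, ENNReal.ofReal (F' z) := by
        rw [lintegral_add_left]
        have hm : Measurable F := by rw [hF]; fun_prop
        exact hm.ennreal_ofReal
    _ ≤ ENNReal.ofReal (C₁ * ((‖Z n c p‖ / ‖A n c p‖) * (1 + Real.log (X n c p q)))) +
        ENNReal.ofReal (C₁ * ((‖ν‖ * (‖Z n c j‖ / ‖A n c j‖)) * (1 + Real.log (X n c j i)))) :=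
        add_le_add h1 h2
    _ = ENNReal.ofReal (C₁ * (‖Z n c p‖ / ‖A n c p‖ * (1 + Real.log (X n c p q)) +
      ‖ν‖ * (‖Z n c j‖ / ‖A n c j‖ * (1 + Real.log (X n c j i))))) := by
        rw [← ENNReal.ofReal_add (by positivity) (by positivity)]
        congr 1
        ring

end GR
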