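import Pool.Agent.helper84.G4.Spec
import Pool.Agent.helper58.GR.ERB

/-!
# g4:ERX (the error term of the differential with four parts; compare helper58/GR/ERB.lean)
-/

set_option autoImplicit false

open Complex Metric Set Filter Topology MeasureTheory
open MPS (om)
open PPS (pre TT fd)
open XPS (Df er dens tau)

noncomputable section

namespace GR

theorem ERX_pair (hNAT : NAT_stmt) (n : ℕ) (c : ℂ) (p q : ℕ) (hR : Ret n c p q) (z : ℂ) (hz : z ≠ c)
    (hZ : ∀ l, 1 ≤ l → l ≤ p + 1 → z ≠ Z n c l) :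
    ∑ l ∈ Finset.Icc 1 p, ERB_u n c z l - lam n c p q * ∑ l ∈ Finset.Icc 1 q, ERB_u n c z l =
      (S n c p - lam n c p q * S n c q) / (z - c) +
      Z n c p / ((n : ℂ) * A n c p) * ((Z n c q ^ n - Z n c p ^ n) /
        ((z - c) * (z - c - Z n c p ^ n) * (z - c - Z n c q ^ n))) := by
  obtain ⟨-, -, -, hZs, -, -, -, -, -, -, hr⟩ := hNAT n c hR.hn
  obtain ⟨-, -, -, -, hA0, -, -⟩ := hr p q hR
  have hn0 : (n : ℂ) ≠ 0 := by
    have := hR.hn
    have : n ≠ 0 := by omega
    exact_mod_cast this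
  have hq1 := hR.q1
  have hqp := hR.qp
  rw [ERB_E hNAT n c p q hR z hz hZ p (by omega) le_rfl,
    ERB_E hNAT n c p q hR z hz hZ q hq1 (by omega)]
  have e1 : z - c ≠ 0 := sub_ne_zero.2 hz
  have e2 : z - c - Z n c p ^ n ≠ 0 := by
    intro h
    apply hZ (p + 1) (by omega) le_rfl
    rw [hZs p]
    linear_combination h
  have e3 : z - c - Z n c q ^ n ≠ 0 := by
    intro h
    apply hZ (q + 1) (by omega) (by omega)
    rw [hZs q]
    linear_combination h
  have e4 := hA0 p (by omega) (by omega)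
  have e5 := hA0 q hq1 (by omega)
  have e6 := hR.ne0 q hq1 (by omega)
  have hlam : lam n c p q * (Z n c q / ((n : ℂ) * A n c q)) = Z n c p / ((n : ℂ) * A n c p) := by
    unfold lam
    field_simp
  have h5 : lam n c p q * (S n c q / (z - c) -
      Z n c q / ((n : ℂ) * A n c q) / ((z - c) * (z - c - Z n c q ^ n))) =
      lam n c p q * S n c q / (z - c) -
        Z n c p / ((n : ℂ) * A n c p) / ((z - c) * (z - c - Z n c q ^ n)) := by
    rw [← hlam]; ring
  rw [h5]
  generalize Z n c p / ((n : ℂ) * A n c p) = D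
  generalize Z n c p ^ n = a at e2
  generalize Z n c q ^ n = b at e3
  field_simp
  ring

theorem ERX (hNAT : NAT_stmt) (hTSP : TSP_stmt) : ERX_stmt := by
  intro n c p q j i ν hR hR' hjq z hz hZ
  obtain ⟨-, -, -, hZs, -, -, -, -, -, -, hr⟩ := hNAT n c hR.hn
  obtain ⟨-, -, -, -, hA0, -, -⟩ := hr p q hR
  have hq1 := hR.q1
  have hqp := hR.qp
  have hi1 := hR'.q1
  have hij := hR'.qp
  set x : ℕ → ℂ := x4 n c p q j i ν with hx
  have hB : Bx x n c p = fun w => ∑ l ∈ Finset.Icc 1 p, x l / A n c l * (1 / (w - Z n c l)) := by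
    funext w
    unfold Bx
    refine Finset.sum_congr rfl fun l _ => ?_
    rw [div_eq_mul_one_div (x l / A n c l)]
  have h1 : er (fp n c) (Bx x n c p) z = ∑ l ∈ Finset.Icc 1 p, x l * ERB_u n c z l := by
    unfold er
    rw [hB, ERB_TTsum, ← Finset.sum_sub_distrib]
    refine Finset.sum_congr rfl fun l hl => ?_
    rw [Finset.mem_Icc] at hl
    have hne := hZ (l + 1) (by omega) (by omega)
    rw [hZs l] at hne
    rw [hTSP n c (Z n c l) z hR.hn (hR.ne0 l hl.1 hl.2) hz hne]
    unfold ERB_u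
    ring
  have hfil : ∀ m, m ≤ p → ∑ l ∈ Finset.Icc 1 m, ERB_u n c z l =
      ∑ l ∈ Finset.Icc 1 p, if l ≤ m then ERB_u n c z l else 0 := by
    intro m hm
    have h3 : Finset.Icc 1 m = (Finset.Icc 1 p).filter fun l => l ≤ m := by
      ext l
      simp only [Finset.mem_Icc, Finset.mem_filter]
      omega
    rw [h3, Finset.sum_filter]
  have h2 : ∑ l ∈ Finset.Icc 1 p, x l * ERB_u n c z l =
      (∑ l ∈ Finset.Icc 1 p, ERB_u n c z l - lam n c p q * ∑ l ∈ Finset.Icc 1 q, ERB_u n c z l) -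
      ν * (∑ l ∈ Finset.Icc 1 j, ERB_u n c z l - lam n c j i * ∑ l ∈ Finset.Icc 1 i, ERB_u n c z l) := by
    rw [hfil q hqp.le, hfil j (by omega), hfil i (by omega), Finset.mul_sum, Finset.mul_sum,
      ← Finset.sum_sub_distrib, ← Finset.sum_sub_distrib, Finset.mul_sum, ← Finset.sum_sub_distrib]
    refine Finset.sum_congr rfl fun l _ => ?_
    rw [hx]
    unfold x4
    split_ifs <;> ring
  rw [h1, h2, ERX_pair hNAT n c p q hR z hz hZ, ERX_pair hNAT n c j i hR' z hz
    (fun l hl1 hl2 => hZ l hl1 (by omega))]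
  ring

end GR
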