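import Pool.Agent.helper84.G4.Spec
import Pool.Agent.helper21.GR3.COR3

/-!
# g4:GCO, the general Core Theorem (compare helper21/GR3/COR3.lean)
-/

set_option autoImplicit false

open Complex Metric Set Filter Topology MeasureTheory
open MPS (om)
open PPS (pre TT fd)
open XPS (Df er dens tau)
open Pool.Agent.helper16.Multibrot

noncomputable section

namespace GR

theorem GCO (hKO1 : V3.KO1_stmt) (hKO3 : V3.KO3_stmt) (hNAT : NAT_stmt) (hMSB : MSBX_stmt)
    (hENG : ENG_stmt) (hTOW : TOW_stmt) (hMD4 : MD4_stmt)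
    (hGUN : GUN_stmt) (hSCA : SCAX_stmt) (hSYM : SYMX_stmt) (hLOC3 : LOC3_stmt) (hLCK : LCK_stmt)
    (hPH3 : PH3_stmt) (hPAI : PAI_stmt) (hCHP : CHPX_stmt) : GCO_stmt := by
  obtain ⟨C, hC1, hC⟩ := hKO1
  have hKQ : KQ C := ⟨hC1, hC⟩
  obtain ⟨D, hD1, hD⟩ := hKO3 (1 / 2) (by norm_num) (by norm_num)
  have hKD : KD D := by
    refine ⟨hD1, ?_⟩
    intro G a r hr hdiff hinj x hx
    refine ((hD G a r hr hdiff hinj).2 x ?_).2.2.2
    rw [show (1 - 1 / 2) * r = r / 2 by ring]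
    exact hx
  have hC0 : 0 < C := by linarith
  have hΓ1 : 1 ≤ 16 * C ^ 2 := by nlinarith
  obtain ⟨ρ₁', Λ₁, hρ₁', hΛ₁, hlck⟩ := hLCK (16 * C ^ 2) 2000 (32 * C ^ 2 * D) (1 / 16)
    hΓ1 (by norm_num) (by positivity) (by norm_num)
  obtain ⟨X₀, c₀, hX₀, hc₀, hloc⟩ := hLOC3 (16 * C ^ 2) 2000 (32 * C ^ 2 * D)
    (min (1 / (8 * C)) ρ₁') (1 / 16) Λ₁
    hΓ1 (by norm_num) (by positivity) (lt_min (by positivity) hρ₁') (by norm_num) hΛ₁
  refine ⟨(16 * C + X₀ + 2) + 768 * C ^ 2 / c₀ ^ 2, ?_, ?_⟩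
  · have : 0 ≤ 768 * C ^ 2 / c₀ ^ 2 := by positivity
    nlinarith
  intro n hn c p q xx ε hret hX hε0 hx1 her
  have hn2 : 2 ≤ n := by omega
  obtain ⟨-, -, -, -, -, -, -, -, -, -, hnat⟩ := hNAT n c hn2
  obtain ⟨hR0, hR2, hX1, hRX, hA0, hxcp, hxc⟩ := hnat p q hret
  have hKpos : 0 ≤ 768 * C ^ 2 / c₀ ^ 2 := by positivity
  have hX16 : 16 * C ≤ X n c p q := by linarith
  have hXX₀ : X₀ ≤ X n c p q := by linarith
  have hXpos : 0 < X n c p q := by linarith
  have hKX₀ : 1 / ((16 * C + X₀ + 2) + 768 * C ^ 2 / c₀ ^ 2) ≤ 1 / X₀ :=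
    one_div_le_one_div_of_le (by linarith) (by linarith)
  have hX₀1 : 1 / X₀ ≤ 1 := by
    rw [div_le_one (by linarith)]
    exact hX₀
  obtain ⟨G, hG⟩ := hTOW n c p q hret
  have hp1 : 1 ≤ p := by have := hret.q1; have := hret.qp; omega
  have hx2 : ∀ j ∈ Finset.Icc 1 p, ‖xx j‖ ≤ 2 := by
    intro j hj
    have h1 := (hx1 j hj).trans hKX₀
    have h3 : ‖xx j‖ ≤ ‖xx j - 1‖ + ‖(1 : ℂ)‖ := by
      have := norm_add_le (xx j - 1) 1
      rwa [sub_add_cancel] at this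
    rw [norm_one] at h3
    linarith
  obtain ⟨i, hi, k, hk, a, b, P, μ, l, hl1, hlP, hP2, hμ, hab, hab'⟩ :=
    hMD4 xx C n c p q G hKQ hret hG hX16 hx2
  obtain ⟨u₀, γ, hu₀, hγ, hg⟩ := hGUN C D n c p q G i hKQ hKD hret hG hX16 hi
  obtain ⟨u₁, γ₁, hu₁, hγ₁, hg₁⟩ := hGUN C D n c p q G k hKQ hKD hret hG hX16 hk
  obtain ⟨θ, hθ, hσ0, hsca⟩ := hSCA xx C n c p q G i hKQ hret hG hi
  obtain ⟨θ', hθ', -, hsca'⟩ := hSCA xx C n c p q G k hKQ hret hG hk
  have hXinv : 1 / X n c p q ≤ 1 / X₀ := one_div_le_one_div_of_le (by linarith) hXX₀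
  have hu₀' : ‖u₀‖ ≤ 1 / X₀ := by
    rw [hu₀]
    exact hXinv
  obtain ⟨ρ, κ', d, hρc, hρ1', hρΛ, hd, hann⟩ := hloc (gg C n c p q i G) (Bhx xx C n c p q i) u₀ γ
    (xx i) a b hγ hu₀' ((hx1 i hi).trans hKX₀) hg hab
  have hρ1 : ρ ≤ 1 / (8 * C) := hρ1'.trans (min_le_left _ _)
  have hρ2 : ρ ≤ ρ₁' := hρ1'.trans (min_le_right _ _)
  have hρ0 : 0 < ρ := by linarith
  -- the energy
  obtain ⟨hBm, hBi⟩ := hMSB xx n c p
  have hAp : 0 < ‖A n c p‖ := norm_pos_iff.2 (hA0 p hp1 (by omega))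
  obtain ⟨-, hDm, hem, hEg⟩ := hENG n c (Bx xx n c p) ε hn2 hret.hc hBm hBi hε0 her
  have hmi : p - i < p := by have := Finset.mem_Icc.1 hi; omega
  have hmk : p - k < p := by have := Finset.mem_Icc.1 hk; omega
  -- restriction to the annulus
  set Rq : ℝ := R n c q with hRq
  have hρ11 : ρ ≤ 1 := by
    refine hρ1.trans ?_
    rw [div_le_one (by positivity)]
    linarith
  have hsub : ball (0 : ℂ) (ρ * Rq) \ closedBall (0 : ℂ) (ρ * Rq / 2) ⊆ ball 0 (Rq / (8 * C)) := by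
    intro w hw
    refine ball_subset_ball ?_ hw.1
    have h1 : ρ * Rq ≤ 1 / (8 * C) * Rq := mul_le_mul_of_nonneg_right hρ1 hR0.le
    calc ρ * Rq ≤ 1 / (8 * C) * Rq := h1
      _ = Rq / (8 * C) := by ring
  have hmeas : MeasurableSet (ball (0 : ℂ) (ρ * Rq) \ closedBall (0 : ℂ) (ρ * Rq / 2)) :=
    measurableSet_ball.diff measurableSet_closedBall
  have hn0 : (0 : ℝ) < n := by exact_mod_cast (by omega : 0 < n)
  have h1 : sg C n c p q * ρ ^ 2 ≤ 48 * ε := by
    by_cases hdiv : (n : ℤ) ∣ d + 2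
    · -- second case
      have hd1 : d = 1 ∧ Λ₁ ≤ ‖b‖ * ρ ^ 2 ∧ Λ₁ * ‖a‖ ≤ ‖b‖ * ρ := by
        rcases hd with h | h | h
        · exfalso
          rw [h] at hdiv
          have := Int.le_of_dvd (by norm_num) hdiv
          omega
        · exfalso
          rw [h] at hdiv
          have := Int.le_of_dvd (by norm_num) hdiv
          omega
        · exact h
      obtain ⟨hd1, hb1, hb2⟩ := hd1
      rw [hd1] at hann
      obtain ⟨κ₂, hκ₂⟩ := hlck ρ (gg C n c p q k G) (Bhx xx C n c p q k) u₁ γ₁ (xx k) a b P μ l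
        hρ0 hρ2 hγ₁ (by
          rw [hu₁]
          refine le_trans ?_ hρΛ
          rw [div_eq_mul_one_div Λ₁ X₀]
          exact mul_le_mul_of_nonneg_left hXinv (by linarith)) (hx2 k hk) hl1 hlP hP2 hμ hb1 hb2 hg₁ hab'
      have hchp := hCHP C n c p q G (Bx xx n c p) (3 * ε) hKQ hret hG hX16 hBm hDm hem hEg (p - i) hmi (p - k) hmk
      set T : ℂ → ℂ := tau (Bx xx n c p) G (p - i) with hTdef
      set T' : ℂ → ℂ := tau (Bx xx n c p) G (p - k) with hTdef'
      set r : ℝ := Rq / (8 * C) with hr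
      have hrR : r ≤ Rq := by
        rw [hr, div_le_iff₀ (by positivity)]
        nlinarith
      have hTm : ∀ m < p, AEMeasurable (tau (Bx xx n c p) G m) (volume.restrict (ball (0 : ℂ) r)) := by
        intro m hm
        have h1 : ContinuousOn (G m) (ball (0 : ℂ) r) :=
          ((hG.diff m hm).mono (ball_subset_ball hrR)).continuousOn
        have h2 : AEMeasurable (G m) (volume.restrict (ball (0 : ℂ) r)) :=
          h1.aemeasurable measurableSet_ball
        have h3 : AEMeasurable (fun w => Bx xx n c p (G m w)) (volume.restrict (ball (0 : ℂ) r)) :=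
          hBm.comp_aemeasurable h2
        have h4 : Measurable (deriv (G m)) := measurable_deriv _
        exact (h4.pow_const 2).aemeasurable.mul h3
      have hm1 : AEMeasurable T (volume.restrict (ball (0 : ℂ) r)) := hTm _ hmi
      have hm2 : AEMeasurable T' (volume.restrict (ball (0 : ℂ) r)) := hTm _ hmk
      set v : ℂ → ENNReal := fun w => ENNReal.ofReal (‖T w‖ + ‖T' w‖ - ‖T w + T' w‖) with hv
      have hvm : AEMeasurable v (volume.restrict (ball (0 : ℂ) r)) := by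
        apply AEMeasurable.ennreal_ofReal
        exact (hm1.norm.add hm2.norm).sub (hm1.add hm2).norm
      obtain ⟨hmp, hme⟩ := COR3_mp (-1) (by simp) r
      have hv2 : ∫⁻ w in ball (0 : ℂ) r, v (-1 * w) = ∫⁻ w in ball (0 : ℂ) r, v w :=
        hmp.lintegral_comp_emb hme v
      have hpt : ∀ w ∈ ball (0 : ℂ) (ρ * Rq) \ closedBall (0 : ℂ) (ρ * Rq / 2),
          ENNReal.ofReal (sg C n c p q / Rq ^ 2 / 8) ≤ v w + v (-1 * w) := by
        intro w hw
        have hw1 : ρ / 2 * Rq < ‖w‖ := by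
          have h1 := hw.2
          rw [mem_closedBall_zero_iff, not_le] at h1
          linarith
        have hw2 : ‖w‖ < ρ * Rq := mem_ball_zero_iff.1 hw.1
        have h5 := COR3_pair hPAI Rq ρ (sg C n c p q / Rq ^ 2) hR0 (by positivity) hρ11 κ' κ₂ θ θ' hθ hθ'
          T T' (fun u => Bhx xx C n c p q i (gg C n c p q i G u) * deriv (gg C n c p q i G) u ^ 2)
          (fun u => Bhx xx C n c p q k (gg C n c p q k G u) * deriv (gg C n c p q k G) u ^ 2)
          hsca hsca' hann hκ₂ w hw1 hw2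
        refine (ENNReal.ofReal_le_ofReal h5).trans ?_
        exact ENNReal.ofReal_add_le
      have hchain : ENNReal.ofReal (sg C n c p q / Rq ^ 2 / 8) * ENNReal.ofReal (2 * (ρ * Rq) ^ 2) ≤
          4 * ENNReal.ofReal (3 * ε) := by
        calc ENNReal.ofReal (sg C n c p q / Rq ^ 2 / 8) * ENNReal.ofReal (2 * (ρ * Rq) ^ 2)
            ≤ ENNReal.ofReal (sg C n c p q / Rq ^ 2 / 8) *
              volume (ball (0 : ℂ) (ρ * Rq) \ closedBall (0 : ℂ) (ρ * Rq / 2)) :=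
              mul_le_mul_right (COR3_area (ρ * Rq) (by positivity)) _
          _ = ∫⁻ w in ball (0 : ℂ) (ρ * Rq) \ closedBall (0 : ℂ) (ρ * Rq / 2),
              ENNReal.ofReal (sg C n c p q / Rq ^ 2 / 8) := by
              rw [setLIntegral_const]
          _ ≤ ∫⁻ w in ball (0 : ℂ) (ρ * Rq) \ closedBall (0 : ℂ) (ρ * Rq / 2), (v w + v (-1 * w)) :=
              setLIntegral_mono' hmeas hpt
          _ ≤ ∫⁻ w in ball (0 : ℂ) r, (v w + v (-1 * w)) := lintegral_mono_set hsub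
          _ = (∫⁻ w in ball (0 : ℂ) r, v w) + ∫⁻ w in ball (0 : ℂ) r, v (-1 * w) :=
              lintegral_add_left' hvm _
          _ = (∫⁻ w in ball (0 : ℂ) r, v w) + ∫⁻ w in ball (0 : ℂ) r, v w := by rw [hv2]
          _ ≤ 2 * ENNReal.ofReal (3 * ε) + 2 * ENNReal.ofReal (3 * ε) := add_le_add hchp hchp
          _ = 4 * ENNReal.ofReal (3 * ε) := by ring
      rw [← ENNReal.ofReal_mul (by positivity), show (4 : ENNReal) = ENNReal.ofReal 4 by norm_num,
        ← ENNReal.ofReal_mul (by norm_num), ENNReal.ofReal_le_ofReal_iff (by positivity)] at hchain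
      have e1 : sg C n c p q / Rq ^ 2 / 8 * (2 * (ρ * Rq) ^ 2) = sg C n c p q * ρ ^ 2 / 4 := by
        field_simp
        ring
      rw [e1] at hchain
      linarith
    · -- first case
      have hsym := hSYM C n c p q G (Bx xx n c p) (3 * ε) hKQ hret hG hX16 hBm hDm hem hEg (p - i) hmi
      have hann' : ∀ u : ℂ, ρ / 2 < ‖u‖ → ‖u‖ < ρ →
          ‖Bhx xx C n c p q i (gg C n c p q i G u) * deriv (gg C n c p q i G) u ^ 2 - κ' * u ^ d‖ ≤
            1 / 4 * ‖κ' * u ^ d‖ ∧ 1 ≤ ‖κ' * u ^ d‖ := by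
        intro u hu1 hu2
        obtain ⟨h1, h2⟩ := hann u hu1 hu2
        refine ⟨h1.trans ?_, h2⟩
        have := norm_nonneg (κ' * u ^ d)
        linarith
      have hlow : ∀ w ∈ ball (0 : ℂ) (ρ * Rq) \ closedBall (0 : ℂ) (ρ * Rq / 2),
          ENNReal.ofReal (‖θ‖ * ((n : ℝ) / 2)) ≤ ENNReal.ofReal
            (∑ k ∈ Finset.range n, ‖tau (Bx xx n c p) G (p - i) (om n ^ k * w)‖ -
              ‖∑ k ∈ Finset.range n, om n ^ (2 * k) * tau (Bx xx n c p) G (p - i) (om n ^ k * w)‖) := by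
        intro w hw
        apply ENNReal.ofReal_le_ofReal
        refine COR3_point hPH3 n hn2 Rq ρ hR0 hρ11 κ' θ d hdiv (tau (Bx xx n c p) G (p - i))
          (fun u => Bhx xx C n c p q i (gg C n c p q i G u) * deriv (gg C n c p q i G) u ^ 2)
          hsca hann' hρ0 w ?_ ?_
        · have h1 := hw.2
          rw [mem_closedBall_zero_iff, not_le] at h1
          linarith
        · exact mem_ball_zero_iff.1 hw.1
      have hchain : ENNReal.ofReal (‖θ‖ * ((n : ℝ) / 2)) * ENNReal.ofReal (2 * (ρ * Rq) ^ 2) ≤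
          2 * n * ENNReal.ofReal (3 * ε) := by
        calc ENNReal.ofReal (‖θ‖ * ((n : ℝ) / 2)) * ENNReal.ofReal (2 * (ρ * Rq) ^ 2)
            ≤ ENNReal.ofReal (‖θ‖ * ((n : ℝ) / 2)) *
              volume (ball (0 : ℂ) (ρ * Rq) \ closedBall (0 : ℂ) (ρ * Rq / 2)) :=
              mul_le_mul_right (COR3_area (ρ * Rq) (by positivity)) _
          _ = ∫⁻ w in ball (0 : ℂ) (ρ * Rq) \ closedBall (0 : ℂ) (ρ * Rq / 2),
              ENNReal.ofReal (‖θ‖ * ((n : ℝ) / 2)) := by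
              rw [setLIntegral_const]
          _ ≤ ∫⁻ w in ball (0 : ℂ) (ρ * Rq) \ closedBall (0 : ℂ) (ρ * Rq / 2), ENNReal.ofReal
            (∑ k ∈ Finset.range n, ‖tau (Bx xx n c p) G (p - i) (om n ^ k * w)‖ -
              ‖∑ k ∈ Finset.range n, om n ^ (2 * k) * tau (Bx xx n c p) G (p - i) (om n ^ k * w)‖) :=
              setLIntegral_mono' hmeas hlow
          _ ≤ _ := lintegral_mono_set hsub
          _ ≤ _ := hsym
      rw [← ENNReal.ofReal_mul (by positivity), show (2 : ENNReal) * (n : ENNReal) =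
        ENNReal.ofReal (2 * (n : ℝ)) by
          rw [ENNReal.ofReal_mul (by norm_num), ENNReal.ofReal_natCast]; norm_num,
        ← ENNReal.ofReal_mul (by positivity), ENNReal.ofReal_le_ofReal_iff (by positivity), hθ]
        at hchain
      have e1 : sg C n c p q / Rq ^ 2 * ((n : ℝ) / 2) * (2 * (ρ * Rq) ^ 2) =
          n * (sg C n c p q * ρ ^ 2) := by
        field_simp
      rw [e1] at hchain
      have e2 : 2 * (n : ℝ) * (3 * ε) = n * (6 * ε) := by ring
      rw [e2] at hchain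
      have h5 := le_of_mul_le_mul_left hchain hn0
      linarith
  have h3 : Rq / (16 * C ^ 2 * ‖A n c p‖) * c₀ ^ 2 ≤ 48 * ε := by
    refine le_trans ?_ h1
    unfold sg
    rw [← hRq]
    apply mul_le_mul_of_nonneg_left _ (by positivity)
    exact pow_le_pow_left₀ hc₀.le hρc 2
  have h5 : Rq / ‖A n c p‖ ≤ 768 * C ^ 2 / c₀ ^ 2 * ε := by
    rw [div_mul_eq_mul_div, le_div_iff₀ (by positivity)]
    rw [div_mul_eq_mul_div, div_le_iff₀ (by positivity)] at h3
    rw [div_mul_eq_mul_div, div_le_iff₀ hAp]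
    linarith
  calc Rq / ‖A n c p‖ ≤ 768 * C ^ 2 / c₀ ^ 2 * ε := h5
    _ ≤ ((16 * C + X₀ + 2) + 768 * C ^ 2 / c₀ ^ 2) * ε := by
        apply mul_le_mul_of_nonneg_right _ hε0
        have : 0 ≤ 16 * C + X₀ + 2 := by positivity
        linarith

end GR
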