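import Pool.Agent.helper84.G4.G4FW
import Pool.Agent.helper16.GR3.GL3F

/-!
# g4:GL4FW, the multiplicative Theorem G: line fields
-/

set_option autoImplicit false

open Complex Metric Set Filter Topology MeasureTheory
open MPS (om)
open PPS (pre TT fd)
open XPS (Df er dens tau)
open Pool.Agent.helper16.Multibrot

noncomputable section

namespace GR

theorem GL4FW (hLFZ : LFZ_stmt) (hLFD : LFD_stmt) (hBDM : BDM_stmt)
    (hNAT : NAT_stmt) (hCTB : NLF.CTB_stmt) (hNZ : NLF.NZ_stmt) (hLFI : NLF.LFI_stmt)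
    (Wt : ℕ → ℂ → ℕ → ℝ) (n₀ : ℕ) (hn₀ : 2 ≤ n₀) (hWt : ∀ n c p, 1 ≤ Wt n c p)
    (hMUW : MUW Wt n₀) : GL4W Wt n₀ := by
  obtain ⟨K, hK, hmul⟩ := hMUW
  obtain ⟨C, hC, hlfd⟩ := hLFD
  set M₀ : ℝ := max C 80 with hM₀
  have hM80 : 80 ≤ M₀ := le_max_right _ _
  have hMC : C ≤ M₀ := le_max_left _ _
  refine ⟨M₀ * K, by nlinarith, ?_⟩
  intro n hn c μ hμ P x hP
  have hn2 : 2 ≤ n := by omega
  obtain ⟨-, -, -, -, -, -, -, -, -, -, hnat⟩ := hNAT n c hn2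
  obtain ⟨-, hLF, hpos, hnA⟩ := hLFI n c μ hn2 hμ
  have hM : c ∈ multibrot n := (Pool.Agent.helper64.ILF98.posArea_subset hn2
    (Pool.Agent.helper64.ILF98.lineField_mem ⟨μ, hμ⟩)).1
  have hb := hBDM n c hn2 hM
  have hne := GL3F_ne0 n c hn2 hnA
  have hac : NLF.CT μ c ≠ 0 := hNZ n c μ hn2 hLF hpos
  have hac0 : 0 < ‖NLF.CT μ c‖ := norm_pos_iff.2 hac
  have hac80 : ‖NLF.CT μ c‖ ≤ 80 := (hCTB μ hLF.meas hLF.bd hLF.supp).2.1 c
  have hc2 : ‖c‖ ≤ 2 := by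
    have := hb 1
    rwa [(hNAT n c hn2).2.2.2.2.2.1] at this
  obtain ⟨ha0, hS⟩ := hLFZ n c μ hn2 hLF
  have hM1 : 1 ≤ M₀ / ‖NLF.CT μ c‖ := by
    rw [one_le_div hac0]; linarith
  have h1 := hmul n hn c (M₀ / ‖NLF.CT μ c‖) hc2 hb hne hM1 (by
    intro p q hR hX2
    obtain ⟨hR0, hR2, hX1, hRX, hA0, -, -⟩ := hnat p q hR
    have hq1 := hR.q1
    have hqp := hR.qp
    have hZp : 0 < ‖Z n c p‖ := norm_pos_iff.2 (hne p (by omega))
    have hZq : 0 < ‖Z n c q‖ := norm_pos_iff.2 (hne q hq1)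
    have hAp0 := hA0 p (by omega) (by omega)
    have hAq0 := hA0 q (by omega) (by omega)
    have hAp : 0 < ‖A n c p‖ := norm_pos_iff.2 hAp0
    have hlX : 0 ≤ Real.log (X n c p q) := Real.log_nonneg hX1.le
    have hSp := hS p (by omega) (fun i h1 _ => hne i h1)
    have hSq := hS q hq1 (fun i h1 _ => hne i h1)
    have h2pq : 2 * ‖Z n c p‖ ≤ ‖Z n c q‖ := by
      unfold X at hX2
      rwa [le_div_iff₀ hZp] at hX2
    have hdq := hlfd n c μ hLF ha0 (Z n c p) (Z n c q) (hne p (by omega)) h2pq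
    have key : S n c p - lam n c p q * S n c q = Z n c p / (A n c p * NLF.CT μ c) *
        (NLF.CT μ (Z n c p) / Z n c p - NLF.CT μ (Z n c q) / Z n c q) := by
      rw [hSp, hSq]
      unfold lam
      have e1 := hne p (by omega)
      have e2 := hne q hq1
      field_simp
    unfold ww
    rw [div_le_iff₀ (by positivity), key, norm_mul, norm_div, norm_mul]
    calc ‖Z n c p‖ / (‖A n c p‖ * ‖NLF.CT μ c‖) *
          ‖NLF.CT μ (Z n c p) / Z n c p - NLF.CT μ (Z n c q) / Z n c q‖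
        ≤ ‖Z n c p‖ / (‖A n c p‖ * ‖NLF.CT μ c‖) *
          (C * (1 + Real.log (‖Z n c q‖ / ‖Z n c p‖))) := by gcongr
      _ ≤ ‖Z n c p‖ / (‖A n c p‖ * ‖NLF.CT μ c‖) *
          (M₀ * (1 + Real.log (‖Z n c q‖ / ‖Z n c p‖))) := by
          have : 0 ≤ 1 + Real.log (‖Z n c q‖ / ‖Z n c p‖) := by
            have : 0 ≤ Real.log (‖Z n c q‖ / ‖Z n c p‖) := hlX
            linarith
          gcongr
      _ = M₀ / ‖NLF.CT μ c‖ * (‖Z n c p‖ / ‖A n c p‖ * (1 + Real.log (X n c p q))) := by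
          unfold X
          field_simp) P x hP
  have hprod : 0 < ∏ p ∈ P, (K * Wt n c p * (1 + Real.log (x p)) / x p) := Finset.prod_pos fun p hp =>
    G4FW_fac K (Wt n c p) (x p) hK (hWt n c p) (hP p hp).2.1
  have hprod2 : ∏ p ∈ P, (K * Wt n c p * (1 + Real.log (x p)) / x p) ≤
      ∏ p ∈ P, (M₀ * K * Wt n c p * (1 + Real.log (x p)) / x p) := by
    apply Finset.prod_le_prod
    · intro p hp
      exact (G4FW_fac K (Wt n c p) (x p) hK (hWt n c p) (hP p hp).2.1).le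
    · intro p hp
      have := G4FW_fac K (Wt n c p) (x p) hK (hWt n c p) (hP p hp).2.1
      have e : M₀ * K * Wt n c p * (1 + Real.log (x p)) / x p =
          M₀ * (K * Wt n c p * (1 + Real.log (x p)) / x p) := by ring
      rw [e]
      nlinarith
  show ‖NLF.CT μ c‖ ≤ M₀ * K * ∏ p ∈ P, (M₀ * K * Wt n c p * (1 + Real.log (x p)) / x p)
  calc ‖NLF.CT μ c‖ = ‖NLF.CT μ c‖ * 1 := (mul_one _).symm
    _ ≤ ‖NLF.CT μ c‖ * (M₀ / ‖NLF.CT μ c‖ * ∏ p ∈ P, (K * Wt n c p * (1 + Real.log (x p)) / x p)) :=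
      mul_le_mul_of_nonneg_left h1 hac0.le
    _ = M₀ * ∏ p ∈ P, (K * Wt n c p * (1 + Real.log (x p)) / x p) := by
      field_simp
    _ ≤ M₀ * ∏ p ∈ P, (M₀ * K * Wt n c p * (1 + Real.log (x p)) / x p) :=
      mul_le_mul_of_nonneg_left hprod2 (by linarith)
    _ ≤ M₀ * K * ∏ p ∈ P, (M₀ * K * Wt n c p * (1 + Real.log (x p)) / x p) := by
      apply mul_le_mul_of_nonneg_right _ (hprod.le.trans hprod2)
      nlinarith

end GR
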