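import Pool.Agent.helper84.G4.Spec

/-!
# Project g4: module MD4: the local form of `Bx` at the cells `i` and `k` (copy of g3:MD3)
-/

set_option autoImplicit false

open Complex Metric Set Filter Topology MeasureTheory
open MPS (om)
open PPS (pre TT fd)
open XPS (Df er dens tau)
open Pool.Agent.helper16.Multibrot

noncomputable section

namespace GR

theorem MD4 (hNF : NF3_stmt) (hCEL : CEL_stmt) (hNAT : NAT_stmt) : MD4_stmt := by
  intro xx C n c p q G hKQ hRet hTow hX hx2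
  have hC1 : 1 ≤ C := hKQ.1
  obtain ⟨-, -, -, -, -, -, -, -, -, -, hN⟩ := hNAT n c hRet.hn
  obtain ⟨hR0, -, hX1, -, hA0, -, -⟩ := hN p q hRet
  obtain ⟨hsep, -, -⟩ := hCEL C n c p q G hKQ hRet hTow hX
  have hp2 : 2 ≤ p := by have := hRet.q1; have := hRet.qp; omega
  have hA : ∀ j ∈ Finset.Icc 1 p, 0 < ‖A n c j‖ := by
    intro j hj
    rw [Finset.mem_Icc] at hj
    exact norm_pos_iff.mpr (hA0 j hj.1 (by omega))
  have hAp : 0 < ‖A n c p‖ := hA p (Finset.mem_Icc.mpr ⟨by omega, le_rfl⟩)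
  have hsg : 0 < sg C n c p q := by
    unfold sg
    have : 0 < C := by linarith
    positivity
  set g : ℝ := sg C n c p q with hg
  have hσ : ∀ j, ss C n c p q j = g * ‖A n c j‖ := fun j => rfl
  have hσ0 : ∀ j ∈ Finset.Icc 1 p, 0 < ss C n c p q j := by
    intro j hj
    rw [hσ]
    exact mul_pos hsg (hA j hj)
  set ρ : ℕ → ℂ := fun j => xx j / A n c j / (g : ℂ) with hρ
  have hρσ : ∀ j ∈ Finset.Icc 1 p, ‖ρ j‖ * ss C n c p q j ≤ 2 := by
    intro j hj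
    have h1 : ‖ρ j‖ * ss C n c p q j = ‖xx j‖ := by
      rw [hσ, hρ]
      simp only [norm_div, Complex.norm_real, Real.norm_eq_abs, abs_of_pos hsg]
      have := (hA j hj).ne'
      have := hsg.ne'
      field_simp
    rw [h1]
    exact hx2 j hj
  obtain ⟨i, hi, k, hk, hik, hσik, a, b, h1, h2⟩ := hNF ℕ (Finset.Icc 1 p) (Z n c) ρ (ss C n c p q)
    (by rw [Nat.card_Icc]; omega) hσ0 (by
      intro i hi j hj hij
      rw [hσ, hσ, ← mul_add]
      exact hsep i hi j hj hij) hρσ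
  have hAi := hA i hi
  have hAk := hA k hk
  have hσi := hσ0 i hi
  have hσk := hσ0 k hk
  have hAi0 : A n c i ≠ 0 := norm_pos_iff.mp hAi
  have hAk0 : A n c k ≠ 0 := norm_pos_iff.mp hAk
  have hgC : (g : ℂ) ≠ 0 := by exact_mod_cast hsg.ne'
  have hAiC : ((‖A n c i‖ : ℝ) : ℂ) ≠ 0 := by exact_mod_cast hAi.ne'
  have hAkC : ((‖A n c k‖ : ℝ) : ℂ) ≠ 0 := by exact_mod_cast hAk.ne'
  -- the form of `Bh`
  have hB : ∀ (j : ℕ) (x : ℂ), j ∈ Finset.Icc 1 p → Bhx xx C n c p q j x =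
      A n c j / ((‖A n c j‖ : ℝ) : ℂ) * (((ss C n c p q j : ℝ) : ℂ) ^ 2 *
        ∑ l ∈ Finset.Icc 1 p, ρ l / (Z n c j + ((ss C n c p q j : ℝ) : ℂ) * x - Z n c l)) := by
    intro j x hj
    have hAj : ((‖A n c j‖ : ℝ) : ℂ) ≠ 0 := by exact_mod_cast (hA j hj).ne'
    have hBe : Bx xx n c p (Z n c j + ((ss C n c p q j : ℝ) : ℂ) * x) =
        (g : ℂ) * ∑ l ∈ Finset.Icc 1 p, ρ l / (Z n c j + ((ss C n c p q j : ℝ) : ℂ) * x - Z n c l) := by
      unfold Bx
      rw [Finset.mul_sum]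
      refine Finset.sum_congr rfl fun l _ => ?_
      rw [hρ]
      show _ = (g : ℂ) * (xx l / A n c l / (g : ℂ) / _)
      rw [← mul_div_assoc, mul_div_cancel₀ _ hgC]
    unfold Bhx
    rw [hBe, hσ]
    push_cast
    field_simp
  have hrat : 0 < ss C n c p q k / ss C n c p q i := div_pos hσk hσi
  have hσiC : ((ss C n c p q i : ℝ) : ℂ) ≠ 0 := by exact_mod_cast hσi.ne'
  have hσkC : ((ss C n c p q k : ℝ) : ℂ) ≠ 0 := by exact_mod_cast hσk.ne'
  have hPn : ‖(Z n c k - Z n c i) / ((ss C n c p q i : ℝ) : ℂ)‖ = ‖Z n c k - Z n c i‖ / ss C n c p q i := by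
    rw [norm_div, Complex.norm_real, Real.norm_eq_abs, abs_of_pos hσi]
  have hsepik : ss C n c p q i + ss C n c p q k ≤ ‖Z n c k - Z n c i‖ := by
    rw [norm_sub_rev, hσ, hσ, ← mul_add]
    exact hsep i hi k hk hik
  have hPl : 1 + ss C n c p q k / ss C n c p q i ≤ ‖Z n c k - Z n c i‖ / ss C n c p q i := by
    rw [le_div_iff₀ hσi, add_mul, one_mul, div_mul_cancel₀ _ hσi.ne']
    exact hsepik
  have hl1 : 1 ≤ ss C n c p q k / ss C n c p q i := by
    rw [le_div_iff₀ hσi, one_mul]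
    exact hσik
  have hunit : ∀ j ∈ Finset.Icc 1 p, ‖A n c j / ((‖A n c j‖ : ℝ) : ℂ)‖ = 1 := by
    intro j hj
    rw [norm_div, Complex.norm_real, norm_norm, div_self (hA j hj).ne']
  refine ⟨i, hi, k, hk, A n c i / ((‖A n c i‖ : ℝ) : ℂ) * a, A n c i / ((‖A n c i‖ : ℝ) : ℂ) * b,
    (Z n c k - Z n c i) / ((ss C n c p q i : ℝ) : ℂ),
    A n c k / ((‖A n c k‖ : ℝ) : ℂ) * ((ss C n c p q k / ss C n c p q i : ℝ) : ℂ) ^ 2 /
      (A n c i / ((‖A n c i‖ : ℝ) : ℂ)), ss C n c p q k / ss C n c p q i, hl1, ?_, ?_, ?_, ?_, ?_⟩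
  · rw [hPn]; linarith
  · rw [hPn]; linarith
  · rw [norm_div, hunit i hi, norm_mul, hunit k hk, norm_pow, Complex.norm_real, Real.norm_eq_abs,
      abs_of_pos hrat, one_mul, div_one]
  · intro x hx0 hx
    have h3 := h1 x hx0 hx
    have h4 : Bhx xx C n c p q i x - xx i / x - A n c i / ((‖A n c i‖ : ℝ) : ℂ) * a -
        A n c i / ((‖A n c i‖ : ℝ) : ℂ) * b * x = A n c i / ((‖A n c i‖ : ℝ) : ℂ) *
        (((ss C n c p q i : ℝ) : ℂ) ^ 2 *
        ∑ l ∈ Finset.Icc 1 p, ρ l / (Z n c i + ((ss C n c p q i : ℝ) : ℂ) * x - Z n c l) -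
        ((ss C n c p q i : ℝ) : ℂ) * ρ i / x - a - b * x) := by
      have h5 : xx i / x = A n c i / ((‖A n c i‖ : ℝ) : ℂ) *
          (((ss C n c p q i : ℝ) : ℂ) * ρ i / x) := by
        rw [hσ, hρ]
        push_cast
        have hx' : x ≠ 0 := norm_pos_iff.mp hx0
        field_simp
      rw [hB i x hi, h5]
      ring
    rw [h4, norm_mul, hunit i hi, one_mul]
    exact h3
  · intro y hy0 hy
    have h3 := h2 y hy0 hy
    have hy' : y ≠ 0 := norm_pos_iff.mp hy0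
    set S : ℂ := ∑ l ∈ Finset.Icc 1 p, ρ l / (Z n c k + ((ss C n c p q k : ℝ) : ℂ) * y - Z n c l) with hS
    have h4 : Bhx xx C n c p q k y - xx k / y -
        A n c k / ((‖A n c k‖ : ℝ) : ℂ) * ((ss C n c p q k / ss C n c p q i : ℝ) : ℂ) ^ 2 /
        (A n c i / ((‖A n c i‖ : ℝ) : ℂ)) *
        (A n c i / ((‖A n c i‖ : ℝ) : ℂ) * a + A n c i / ((‖A n c i‖ : ℝ) : ℂ) * b *
          ((Z n c k - Z n c i) / ((ss C n c p q i : ℝ) : ℂ) +
            ((ss C n c p q k / ss C n c p q i : ℝ) : ℂ) * y)) =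
        A n c k / ((‖A n c k‖ : ℝ) : ℂ) * ((ss C n c p q k / ss C n c p q i : ℝ) : ℂ) ^ 2 *
        (((ss C n c p q i : ℝ) : ℂ) ^ 2 * S -
          ((ss C n c p q i : ℝ) : ℂ) ^ 2 / ((ss C n c p q k : ℝ) : ℂ) * ρ k / y -
          (a + b * ((Z n c k - Z n c i) / ((ss C n c p q i : ℝ) : ℂ) +
            ((ss C n c p q k : ℝ) : ℂ) / ((ss C n c p q i : ℝ) : ℂ) * y))) := by
      have hu0 : A n c i / ((‖A n c i‖ : ℝ) : ℂ) ≠ 0 := div_ne_zero hAi0 hAiC
      have h5 : xx k / y = A n c k / ((‖A n c k‖ : ℝ) : ℂ) *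
          (((ss C n c p q k : ℝ) : ℂ) * ρ k / y) := by
        rw [hσ, hρ]
        push_cast
        field_simp
      have h6 : A n c k / ((‖A n c k‖ : ℝ) : ℂ) * ((ss C n c p q k / ss C n c p q i : ℝ) : ℂ) ^ 2 /
          (A n c i / ((‖A n c i‖ : ℝ) : ℂ)) *
          (A n c i / ((‖A n c i‖ : ℝ) : ℂ) * a + A n c i / ((‖A n c i‖ : ℝ) : ℂ) * b *
            ((Z n c k - Z n c i) / ((ss C n c p q i : ℝ) : ℂ) +
              ((ss C n c p q k / ss C n c p q i : ℝ) : ℂ) * y)) =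
          A n c k / ((‖A n c k‖ : ℝ) : ℂ) * ((ss C n c p q k / ss C n c p q i : ℝ) : ℂ) ^ 2 *
          (a + b * ((Z n c k - Z n c i) / ((ss C n c p q i : ℝ) : ℂ) +
            ((ss C n c p q k / ss C n c p q i : ℝ) : ℂ) * y)) := by
        rw [div_mul_eq_mul_div, div_eq_iff hu0]
        ring
      rw [hB k y hk, ← hS, h5, h6]
      push_cast
      generalize A n c k / ((‖A n c k‖ : ℝ) : ℂ) = u
      generalize S = S'
      field_simp
    rw [h4, norm_mul, norm_mul, hunit k hk, one_mul, norm_pow, Complex.norm_real, Real.norm_eq_abs,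
      abs_of_pos hrat, hPn]
    have h7 : 2000 * (ss C n c p q k / ss C n c p q i) ^ 2 / (‖Z n c k - Z n c i‖ / ss C n c p q i) =
        (ss C n c p q k / ss C n c p q i) ^ 2 * (2000 * (ss C n c p q i / ‖Z n c k - Z n c i‖)) := by
      rw [div_div_eq_mul_div]
      ring
    rw [h7]
    exact mul_le_mul_of_nonneg_left h3 (by positivity)

end GR
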