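import Pool.Agent.helper84.G4.Spec

set_option autoImplicit false

open Complex Metric Set Filter Topology MeasureTheory
open MPS (om)
open PPS (pre TT fd)
open XPS (Df er dens tau)

noncomputable section

namespace GR

theorem SCAX_Ane (n : ℕ) (c : ℂ) (p q j : ℕ) (h : Ret n c p q) (hj : j ≤ p) : A n c j ≠ 0 := by
  unfold A
  rw [Finset.prod_ne_zero_iff]
  intro i hi
  rw [Finset.mem_Ico] at hi
  have h2 := h.hn
  refine mul_ne_zero (by exact_mod_cast (by omega : n ≠ 0)) (pow_ne_zero _ ?_)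
  exact h.ne0 i hi.1 (by omega)

theorem SCAX : SCAX_stmt := by
  intro x C n c p q G j₀ hC hR hG hj
  rw [Finset.mem_Icc] at hj
  have hq := hR.qp
  have hC0 : 0 < C := by linarith [hC.1]
  have hRpos : 0 < R n c q := norm_pos_iff.2 (hR.ne0 q hR.q1 hq.le)
  have hAp : A n c p ≠ 0 := SCAX_Ane n c p q p hR le_rfl
  have hAj : A n c j₀ ≠ 0 := SCAX_Ane n c p q j₀ hR hj.2
  have hsg : 0 < sg C n c p q := by
    unfold sg
    have := norm_pos_iff.2 hAp
    positivity
  have hs : (0 : ℝ) < ss C n c p q j₀ := by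
    unfold ss
    exact mul_pos hsg (norm_pos_iff.2 hAj)
  have hsC : (ss C n c p q j₀ : ℂ) ≠ 0 := by exact_mod_cast hs.ne'
  have hRC : (R n c q : ℂ) ≠ 0 := by exact_mod_cast hRpos.ne'
  refine ⟨(ss C n c p q j₀ : ℂ) / (A n c j₀ * (R n c q : ℂ) ^ 2), ?_, hsg, ?_⟩
  · rw [norm_div, norm_mul, norm_pow, Complex.norm_real, Complex.norm_real, Real.norm_of_nonneg hs.le,
      Real.norm_of_nonneg hRpos.le]
    have hn := norm_pos_iff.2 hAj
    unfold ss
    field_simp
  · intro u hu
    have hm : p - j₀ < p := by omega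
    have hRu : (R n c q : ℂ) * u ∈ ball (0 : ℂ) (R n c q) := by
      rw [mem_ball_zero_iff] at hu ⊢
      rw [norm_mul, Complex.norm_real, Real.norm_of_nonneg hRpos.le]
      nlinarith
    have hd : DifferentiableAt ℂ (G (p - j₀)) ((R n c q : ℂ) * u) :=
      (hG.diff _ hm).differentiableAt (isOpen_ball.mem_nhds hRu)
    have hder : deriv (gg C n c p q j₀ G) u =
        (R n c q : ℂ) * deriv (G (p - j₀)) ((R n c q : ℂ) * u) / (ss C n c p q j₀ : ℂ) := by
      have h1 : HasDerivAt (fun u : ℂ => (R n c q : ℂ) * u) (R n c q : ℂ) u := by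
        simpa using (hasDerivAt_id u).const_mul (R n c q : ℂ)
      have h2 := hd.hasDerivAt.comp u h1
      have h3 := (h2.sub_const (Z n c j₀)).div_const (ss C n c p q j₀ : ℂ)
      have h4 : gg C n c p q j₀ G = fun u => ((G (p - j₀) ∘ fun u : ℂ => (R n c q : ℂ) * u) u - Z n c j₀) /
          (ss C n c p q j₀ : ℂ) := by
        funext u; rfl
      rw [h4, h3.deriv]; ring
    have hB : Bhx x C n c p q j₀ (gg C n c p q j₀ G u) = (ss C n c p q j₀ : ℂ) * A n c j₀ *
        Bx x n c p (G (p - j₀) ((R n c q : ℂ) * u)) := by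
      unfold Bhx gg
      congr 2
      field_simp
      ring
    rw [hder, hB]
    unfold tau
    field_simp

end GR
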