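import Pool.Agent.helper84.G4.MSBX
import Pool.Agent.helper84.G4.AZ
import Pool.Agent.helper84.G4.MD4
import Pool.Agent.helper84.G4.SCAX
import Pool.Agent.helper84.G4.CHNX
import Pool.Agent.helper84.G4.CHPX
import Pool.Agent.helper84.G4.SYMX
import Pool.Agent.helper84.G4.GCO
import Pool.Agent.helper84.G4.ERX
import Pool.Agent.helper84.G4.ERI4
import Pool.Agent.helper84.G4.CSTW
import Pool.Agent.helper84.G4.CORW
import Pool.Agent.helper84.G4.MULW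
import Pool.Agent.helper84.G4.G4FW
import Pool.Agent.helper84.G4.GL4FW
import Pool.Agent.helper98.GR.NAT
import Pool.Agent.helper20.GR.TOP
import Pool.Agent.helper97.GR.KNV
import Pool.Agent.helper93.GR.DIS
import Pool.Agent.helper40.GR.CEL
import Pool.Agent.helper42.GR.TOW
import Pool.Agent.helper88.GR.GUN
import Pool.Agent.helper78.GR.ENG
import Pool.Agent.helper20.GR3.ARE
import Pool.Agent.helper73.GR3.WS3
import Pool.Agent.helper30.GR3.WS5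
import Pool.Agent.helper90.GR3.WS4
import Pool.Agent.helper98.GR3.NBR
import Pool.Agent.helper24.GR3.NF3
import Pool.Agent.helper72.GR3.LOC3
import Pool.Agent.helper76.GR.SEL
import Pool.Agent.helper93.GR3.LCK
import Pool.Agent.helper22.GR3.PH3
import Pool.Agent.helper40.GR3.PAI
import Pool.Agent.helper84.GR.CRT
import Pool.Agent.helper90.GR.PREL
import Pool.Agent.helper53.GR.TSP
import Pool.Agent.helper58.GR.ERB
import Pool.Agent.helper9.GR.ERI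
import Pool.Agent.helper31.GR.KER
import Pool.Agent.helper33.GR.GRO
import Pool.Agent.helper65.GR.MIS
import Pool.Agent.helper37.GR.BDM
import Pool.Agent.helper25.GR.DER
import Pool.Agent.helper16.GR.KAP
import Pool.Agent.helper28.GR.LFZ
import Pool.Agent.helper87.GR.LFD
import Pool.Agent.helper89.V3.KO1
import Pool.Agent.helper70.V3.KO3
import Pool.Agent.helper38.V3.KO0
import Pool.Agent.helper23.V3.KO2
import Pool.Agent.helper54.XP.LVG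
import Pool.Agent.helper36.PP.PRB
import Pool.Agent.helper72.PP.MCV
import Pool.Agent.helper69.PP.MS
import Pool.Agent.helper79.MP.LR
import Pool.Agent.helper92.MP.MI
import Pool.Agent.helper99.MP.ZN
import Pool.Agent.helper52.MP.ZR
import Pool.Agent.helper25.MP.ZL
import Pool.Agent.helper74.NL.Z

/-!
# Project g4: assembly, `n ≥ 3`
-/

set_option autoImplicit false

open Complex Metric Set Filter Topology MeasureTheory
open MPS (om)
open PPS (pre TT fd)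
open XPS (Df er dens tau)
open Pool.Agent.helper16.Multibrot

noncomputable section

namespace G4A

open GR

theorem KO0_a : V3.KO0_stmt := V3.KO0
theorem KO1_a : V3.KO1_stmt := V3.KO1
theorem KO3_a : V3.KO3_stmt := V3.KO3 KO0_a (V3.KO2 KO0_a)
theorem PRB_a : PPS.PRB_stmt := PPS.PRB
theorem MCV_a : PPS.MCV_stmt := PPS.MCV PRB_a PPS.MS
theorem LVG_a : XPS.LVG_stmt := XPS.LVG PRB_a
theorem MI_a : MPS.MI_stmt := MPS.MI
theorem ZN_a : MPS.ZN_stmt := MPS.ZN MPS.ZR MPS.ZBIG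
theorem LR_a : MPS.LR_stmt := MPS.LR

theorem NAT_a : NAT_stmt := NAT
theorem TOP_a : TOP_stmt := TOP NAT_a
theorem KNV_a : KNV_stmt := KNV
theorem DIS_a : DIS_stmt := DIS TOP_a KNV_a
theorem CEL_a : CEL_stmt := CEL NAT_a TOP_a KNV_a DIS_a
theorem TOW_a : TOW_stmt := TOW LR_a
theorem GUN_a : GUN_stmt := GUN NAT_a TOP_a
theorem ENG_a : ENG_stmt := ENG MCV_a
theorem PREL_a : PREL_stmt := PREL PRB_a
theorem CRT_a : CRT_stmt := CRT PREL_a NAT_a MCV_a PRB_a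
theorem TSP_a : TSP_stmt := TSP PREL_a
theorem ERB_a : ERB_stmt := ERB NAT_a TSP_a
theorem KER_a : KER_stmt := KER
theorem ERI_a : ERI_stmt := ERI ERB_a KER_a MI_a
theorem MIS_a : MIS_stmt := MIS GRO ZN_a
theorem BDM_a : BDM_stmt := BDM
theorem KAP_a : KAP_stmt := KAP MIS_a DER
theorem LFZ_a : LFZ_stmt := LFZ NLF.Z_REL NLF.Z_CTB
theorem LFD_a : LFD_stmt := LFD KER_a NLF.Z_CTB

theorem WS3_a : WS3_stmt := WS3 ARE
theorem WS4_a : WS4_stmt := WS4 WS3_a (WS5 ARE)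
theorem NF3_a : NF3_stmt := NF3 (NBR WS3_a WS4_a)
theorem LOC3_a : LOC3_stmt := LOC3 SEL

theorem MSBX_a : MSBX_stmt := MSBX MI_a
theorem AZ_a : AZ_stmt := AZ NAT_a TOP_a KNV_a
theorem MD4_a : MD4_stmt := MD4 NF3_a CEL_a NAT_a
theorem SCAX_a : SCAX_stmt := SCAX
theorem CHNX_a : CHNX_stmt := CHNX NAT_a TOP_a DIS_a LVG_a
theorem CHPX_a : CHPX_stmt := CHPX CHNX_a
theorem SYMX_a : SYMX_stmt := SYMX CHNX_a CRT_a
theorem GCO_a : GCO_stmt := GCO KO1_a KO3_a NAT_a MSBX_a ENG_a TOW_a MD4_a GUN_a SCAX_a SYMX_a LOC3_a LCK PH3 PAI CHPX_a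
theorem ERX_a : ERX_stmt := ERX NAT_a TSP_a
theorem ERI4_a : ERI4_stmt := ERI4 ERX_a KER_a

/-- everything after the General Core Theorem. -/
theorem MUW_of (Wt : ℕ → ℂ → ℕ → ℝ) (n₀ : ℕ) (hn₀ : 2 ≤ n₀) (hWt : ∀ n c p, 1 ≤ Wt n c p) (h : GCW Wt n₀) :
    MUW Wt n₀ :=
  MULW NAT_a Wt n₀ hn₀ hWt (CORW KO1_a NAT_a TOW_a CEL_a ERI_a Wt n₀ hn₀ hWt h)
    (CSTW KO1_a NAT_a TOW_a CEL_a AZ_a ERI4_a Wt n₀ hn₀ hWt h)

theorem G4W_of (Wt : ℕ → ℂ → ℕ → ℝ) (n₀ : ℕ) (hn₀ : 2 ≤ n₀) (hWt : ∀ n c p, 1 ≤ Wt n c p) (h : GCW Wt n₀) :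
    G4W Wt n₀ :=
  G4FW NAT_a MIS_a BDM_a KAP_a Wt n₀ hn₀ hWt (MUW_of Wt n₀ hn₀ hWt h)

theorem GL4W_of (Wt : ℕ → ℂ → ℕ → ℝ) (n₀ : ℕ) (hn₀ : 2 ≤ n₀) (hWt : ∀ n c p, 1 ≤ Wt n c p) (h : GCW Wt n₀) :
    GL4W Wt n₀ :=
  GL4FW LFZ_a LFD_a BDM_a NAT_a NLF.Z_CTB NLF.Z_NZ NLF.LFI Wt n₀ hn₀ hWt (MUW_of Wt n₀ hn₀ hWt h)

theorem GCW3 : GCW (fun _ _ _ => 1) 3 := by
  obtain ⟨K, hK, h⟩ := GCO_a
  refine ⟨K, hK, fun n hn c p q x ε hR hX hε hx he => ?_⟩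
  rw [mul_one] at hX ⊢
  exact h n hn c p q x ε hR hX hε hx he

theorem G4_3 : G4W (fun _ _ _ => 1) 3 := G4W_of _ 3 (by norm_num) (fun _ _ _ => le_rfl) GCW3

theorem GL4_3 : GL4W (fun _ _ _ => 1) 3 := GL4W_of _ 3 (by norm_num) (fun _ _ _ => le_rfl) GCW3

end G4A
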