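import Pool.Agent.helper84.G4.All
import Pool.Agent.helper69.G5.ZROX
import Pool.Agent.helper69.G5.KFNX
import Pool.Agent.helper69.G5.KUBX
import Pool.Agent.helper69.G5.BCFX
import Pool.Agent.helper69.G5.BSYX
import Pool.Agent.helper69.G5.BCIX
import Pool.Agent.helper69.G5.BABX
import Pool.Agent.helper69.G5.GC2
import Pool.Agent.helper31.GR2.ZR1
import Pool.Agent.helper41.GR2.BCZ
import Pool.Agent.helper98.GR2B.BPG
import Pool.Agent.helper78.GR2B.BHP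
import Pool.Agent.helper11.GR2B.BOK
import Pool.Agent.helper72.GR2B.BOF
import Pool.Agent.helper51.GR2B.BLC
import Pool.Agent.helper67.GR2B.BPA
import Pool.Agent.helper18.GR2B.BRQ
import Pool.Agent.helper85.GR2B.BCS
import Pool.Agent.helper31.GR2B.BNN
import Pool.Agent.helper40.GR2.AEX
import Pool.Agent.helper52.GR2.BEX
import Pool.Agent.helper30.GR2.CSM
import Pool.Agent.helper19.GR2.WEX
import Pool.Agent.helper59.GR2B.BGP

/-!
# Project g4: the final theorems for all `n ≥ 2`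
-/

set_option autoImplicit false

open Complex Metric Set Filter Topology MeasureTheory
open MPS (om)
open PPS (pre TT fd)
open XPS (Df er dens tau)
open Pool.Agent.helper16.Multibrot

noncomputable section

namespace G4A

open GR

theorem ZROX_a : ZROX_stmt := ZROX ZR1 DIS_a CEL_a NAT_a
theorem KFNX_a : KFNX_stmt := KFNX DIS_a TOP_a NAT_a
theorem KUBX_a : KUBX_stmt := KUBX DIS_a TOP_a CEL_a NAT_a
theorem BCFX_a : BCFX_stmt := BCFX ZROX_a KFNX_a KUBX_a NAT_a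
theorem BSYX_a : BSYX_stmt := BSYX SYMX_a PH3
theorem BCIX_a : BCIX_stmt := BCIX NAT_a MD4_a GUN_a SCAX_a LOC3_a BSYX_a
theorem BABX_a : BABX_stmt := BABX (BOF (BOK BPG BHP)) (BLC BCZ) BSYX_a (BPA PAI) BRQ BCS CHPX_a NAT_a
theorem GC2_a : GC2_stmt := GC2 KO1_a KO3_a NAT_a MSBX_a ENG_a TOW_a BCIX_a BCFX_a BABX_a BNN
theorem GCW_a : GCW WB 2 := GCB GCO_a GC2_a
theorem WEX_a : WEX_stmt := WEX (AEX BDM_a) (BEX (AEX BDM_a) BDM_a) CSM BDM_a

theorem G4_a : G4W WB 2 := G4W_of WB 2 le_rfl WB_one GCW_a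
theorem GL4_a : GL4W WB 2 := GL4W_of WB 2 le_rfl WB_one GCW_a

/-- the weight: `(1 + log p) ^ 4` for `n = 2`, `1` for `n ≥ 3`. -/
def Wp (n p : ℕ) : ℝ := if n = 2 then (1 + Real.log p) ^ 4 else 1

theorem Wp_one (n p : ℕ) (hp : 1 ≤ p) : 1 ≤ Wp n p := by
  unfold Wp
  split_ifs
  · have h1 : (1 : ℝ) ≤ p := by exact_mod_cast hp
    have h2 : 0 ≤ Real.log p := Real.log_nonneg h1
    exact one_le_pow₀ (by linarith)
  · exact le_rfl

theorem WB_le (n : ℕ) (c : ℂ) (hc : c ∈ multibrot n) (hh : c ∉ hyperbolic n) (p : ℕ) (hp : 1 ≤ p) :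
    WB n c p ≤ 256 * Wp n p := by
  unfold WB Wp
  split_ifs with h
  · subst h
    have hp1 : (1 : ℝ) ≤ p := by exact_mod_cast hp
    have h2 := WEX_a c hc hh p hp
    have h3 : 0 ≤ Real.log (SS 2 c p) := Real.log_nonneg (BGP_SS 2 c p hp)
    obtain ⟨h4, h5⟩ := BGP_num p (Real.log (SS 2 c p)) hp1 h3 h2
    calc (1 + Real.log (1 + Real.log (SS 2 c p))) ^ 4 ≤ (4 * (1 + Real.log p)) ^ 4 :=
          pow_le_pow_left₀ h4 h5 4
      _ = 256 * (1 + Real.log p) ^ 4 := by ring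
  · norm_num

/-- comparison of the products. -/
theorem prod_le (n : ℕ) (c : ℂ) (hc : c ∈ multibrot n) (hh : c ∉ hyperbolic n) (K : ℝ) (hK : 1 ≤ K) (P : Finset ℕ)
    (x : ℕ → ℝ) (hP : ∀ p ∈ P, 2 ≤ p ∧ 1 ≤ x p) :
    ∏ p ∈ P, (K * WB n c p * (1 + Real.log (x p)) / x p) ≤
      ∏ p ∈ P, (256 * K * Wp n p * (1 + Real.log (x p)) / x p) := by
  apply Finset.prod_le_prod
  · intro p hp
    exact (G4FW_fac K (WB n c p) (x p) hK (WB_one n c p) (hP p hp).2).le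
  · intro p hp
    obtain ⟨h1, h2⟩ := hP p hp
    have h3 := WB_le n c hc hh p (by omega)
    have h4 : 0 ≤ Real.log (x p) := Real.log_nonneg h2
    have h5 : 0 < x p := by linarith
    refine div_le_div_of_nonneg_right ?_ h5.le
    refine mul_le_mul_of_nonneg_right ?_ (by linarith)
    calc K * WB n c p ≤ K * (256 * Wp n p) := mul_le_mul_of_nonneg_left h3 (by linarith)
      _ = 256 * K * Wp n p := by ring

/-- enlarging the constant. -/
theorem prod_mono (n : ℕ) (K K' : ℝ) (hK : 1 ≤ K) (hKK : K ≤ K') (P : Finset ℕ)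
    (x : ℕ → ℝ) (hP : ∀ p ∈ P, 2 ≤ p ∧ 1 ≤ x p) :
    0 < ∏ p ∈ P, (K * Wp n p * (1 + Real.log (x p)) / x p) ∧
    ∏ p ∈ P, (K * Wp n p * (1 + Real.log (x p)) / x p) ≤
      ∏ p ∈ P, (K' * Wp n p * (1 + Real.log (x p)) / x p) := by
  have hfac : ∀ p ∈ P, 0 < K * Wp n p * (1 + Real.log (x p)) / x p := fun p hp =>
    G4FW_fac K (Wp n p) (x p) hK (Wp_one n p (by have := (hP p hp).1; omega)) (hP p hp).2
  refine ⟨Finset.prod_pos hfac, Finset.prod_le_prod (fun p hp => (hfac p hp).le) fun p hp => ?_⟩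
  obtain ⟨h1, h2⟩ := hP p hp
  have h3 := Wp_one n p (by omega)
  have h4 : 0 ≤ Real.log (x p) := Real.log_nonneg h2
  have h5 : 0 < x p := by linarith
  gcongr

/-- THEOREM G, multiplicative form, all `n ≥ 2`. -/
theorem mulG : ∃ K : ℝ, 1 ≤ K ∧ ∀ n : ℕ, 2 ≤ n → ∀ c ∈ multibrot n, ∀ (P : Finset ℕ) (x : ℕ → ℝ),
    (∀ p ∈ P, 2 ≤ p ∧ 1 ≤ x p ∧ ∀ j, 1 ≤ j → j < p → x p * ‖Z n c p‖ ≤ ‖Z n c j‖) →
    Metric.infDist c (hyperbolic n) ≤ K * ∏ p ∈ P, (K * Wp n p * (1 + Real.log (x p)) / x p) := by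
  obtain ⟨K, hK, h⟩ := G4_a
  refine ⟨4000 * K + 256 * K, by linarith, ?_⟩
  intro n hn c hc P x hP
  have hP' : ∀ p ∈ P, 2 ≤ p ∧ 1 ≤ x p := fun p hp => ⟨(hP p hp).1, (hP p hp).2.1⟩
  obtain ⟨h0, h1⟩ := prod_mono n (256 * K) (4000 * K + 256 * K) (by linarith) (by linarith) P x hP'
  have hpos : 0 < ∏ p ∈ P, ((4000 * K + 256 * K) * Wp n p * (1 + Real.log (x p)) / x p) :=
    lt_of_lt_of_le h0 h1
  by_cases hh : c ∈ hyperbolic n
  · rw [Metric.infDist_zero_of_mem hh]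
    positivity
  · have h2 := h n hn c hc P x hP
    have h3 := prod_le n c hc hh K hK P x hP'
    calc Metric.infDist c (hyperbolic n) ≤ 4000 * ∏ p ∈ P, (K * WB n c p * (1 + Real.log (x p)) / x p) := h2
      _ ≤ 4000 * ∏ p ∈ P, (256 * K * Wp n p * (1 + Real.log (x p)) / x p) := by linarith
      _ ≤ 4000 * ∏ p ∈ P, ((4000 * K + 256 * K) * Wp n p * (1 + Real.log (x p)) / x p) := by linarith
      _ ≤ (4000 * K + 256 * K) * ∏ p ∈ P, ((4000 * K + 256 * K) * Wp n p * (1 + Real.log (x p)) / x p) := by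
        apply mul_le_mul_of_nonneg_right _ hpos.le
        linarith

/-- THEOREM G for line fields, multiplicative form, all `n ≥ 2`. -/
theorem mulGL : ∃ K : ℝ, 1 ≤ K ∧ ∀ n : ℕ, 2 ≤ n → ∀ (c : ℂ) (μ : ℂ → ℂ),
    Pool.Agent.helper98.ILF.IsInvariantLineField (fun z : ℂ => z ^ n + c) μ → ∀ (P : Finset ℕ) (x : ℕ → ℝ),
    (∀ p ∈ P, 2 ≤ p ∧ 1 ≤ x p ∧ ∀ j, 1 ≤ j → j < p → x p * ‖Z n c p‖ ≤ ‖Z n c j‖) →
    ‖∫ z : ℂ, μ z / (z - c)‖ ≤ K * ∏ p ∈ P, (K * Wp n p * (1 + Real.log (x p)) / x p) := by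
  obtain ⟨K, hK, h⟩ := GL4_a
  refine ⟨256 * K, by linarith, ?_⟩
  intro n hn c μ hμ P x hP
  have hP' : ∀ p ∈ P, 2 ≤ p ∧ 1 ≤ x p := fun p hp => ⟨(hP p hp).1, (hP p hp).2.1⟩
  obtain ⟨h0, -⟩ := prod_mono n (256 * K) (256 * K) (by linarith) le_rfl P x hP'
  obtain ⟨-, hLF, hpos, hnA⟩ := NLF.LFI n c μ hn hμ
  have hcM : c ∈ multibrot n := (Pool.Agent.helper64.ILF98.posArea_subset hn
    (Pool.Agent.helper64.ILF98.lineField_mem ⟨μ, hμ⟩)).1
  have hh : c ∉ hyperbolic n := fun hc => hnA hc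
  have h2 := h n hn c μ hμ P x hP
  have h3 := prod_le n c hcM hh K hK P x hP'
  calc ‖∫ z : ℂ, μ z / (z - c)‖ ≤ K * ∏ p ∈ P, (K * WB n c p * (1 + Real.log (x p)) / x p) := h2
    _ ≤ K * ∏ p ∈ P, (256 * K * Wp n p * (1 + Real.log (x p)) / x p) :=
      mul_le_mul_of_nonneg_left h3 (by linarith)
    _ ≤ 256 * K * ∏ p ∈ P, (256 * K * Wp n p * (1 + Real.log (x p)) / x p) := by
      apply mul_le_mul_of_nonneg_right _ h0.le
      linarith

/-- the choice of the ratio. -/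
theorem half (K W : ℝ) (hK : 1 ≤ K) (hW : 1 ≤ W) :
    1 ≤ 16 * K ^ 2 * W * (1 + Real.log W) ∧
    K * W * (1 + Real.log (16 * K ^ 2 * W * (1 + Real.log W))) / (16 * K ^ 2 * W * (1 + Real.log W)) ≤ 1 / 2 := by
  have hW0 : 0 < W := by linarith
  have hlW : 0 ≤ Real.log W := Real.log_nonneg hW
  set T : ℝ := 4 * K with hT
  have hT4 : 4 ≤ T := by linarith
  have hTT : 16 * K ^ 2 = T ^ 2 := by rw [hT]; ring
  rw [hTT]
  set L : ℝ := 1 + Real.log W with hL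
  have hL1 : 1 ≤ L := by linarith
  have h1 : Real.log (T ^ 2 * W * L) = 2 * Real.log T + Real.log W + Real.log L := by
    rw [Real.log_mul (by positivity) (by linarith), Real.log_mul (by positivity) hW0.ne', Real.log_pow]
    norm_num
  have h2 : Real.log T ≤ T - 1 := Real.log_le_sub_one_of_pos (by linarith)
  have h3 : Real.log L ≤ L - 1 := Real.log_le_sub_one_of_pos (by linarith)
  have h4 : 1 + Real.log (T ^ 2 * W * L) ≤ 2 * T * L := by
    rw [h1]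
    nlinarith
  have hx : 1 ≤ T ^ 2 * W * L := by
    have : 1 ≤ T ^ 2 := by nlinarith
    exact one_le_mul_of_one_le_of_one_le (one_le_mul_of_one_le_of_one_le this hW) hL1
  refine ⟨hx, ?_⟩
  rw [div_le_iff₀ (by linarith)]
  have hKW : 0 < K * W := by positivity
  calc K * W * (1 + Real.log (T ^ 2 * W * L)) ≤ K * W * (2 * T * L) :=
        mul_le_mul_of_nonneg_left h4 hKW.le
    _ = 1 / 2 * (T ^ 2 * W * L) := by rw [hT]; ring

/-- the criterion for infinitely many returns, abstract. -/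
theorem freq (K : ℝ) (hK : 1 ≤ K) (n : ℕ) (c : ℂ) (d : ℝ)
    (h : ∀ (P : Finset ℕ) (x : ℕ → ℝ),
      (∀ p ∈ P, 2 ≤ p ∧ 1 ≤ x p ∧ ∀ j, 1 ≤ j → j < p → x p * ‖Z n c p‖ ≤ ‖Z n c j‖) →
      d ≤ K * ∏ p ∈ P, (K * Wp n p * (1 + Real.log (x p)) / x p))
    (hf : ∃ᶠ p in atTop, ∀ j, 1 ≤ j → j < p →
      16 * K ^ 2 * Wp n p * (1 + Real.log (Wp n p)) * ‖Z n c p‖ ≤ ‖Z n c j‖) : d ≤ 0 := by
  have hinf : {p : ℕ | 2 ≤ p ∧ ∀ j, 1 ≤ j → j < p →
      16 * K ^ 2 * Wp n p * (1 + Real.log (Wp n p)) * ‖Z n c p‖ ≤ ‖Z n c j‖}.Infinite := by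
    rw [← Nat.frequently_atTop_iff_infinite]
    exact (hf.and_eventually (eventually_ge_atTop 2)).mono fun p hp => ⟨hp.2, hp.1⟩
  have hN : ∀ N : ℕ, d ≤ K * (1 / 2) ^ N := by
    intro N
    obtain ⟨P, hP, hcard⟩ := hinf.exists_subset_card_eq N
    have h1 := h P (fun p => 16 * K ^ 2 * Wp n p * (1 + Real.log (Wp n p))) (by
      intro p hp
      obtain ⟨hp2, hp3⟩ := hP hp
      exact ⟨hp2, (half K (Wp n p) hK (Wp_one n p (by omega))).1, hp3⟩)
    refine h1.trans ?_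
    apply mul_le_mul_of_nonneg_left _ (by linarith)
    rw [← hcard, ← Finset.prod_const]
    apply Finset.prod_le_prod
    · intro p hp
      obtain ⟨hp2, -⟩ := hP hp
      exact (G4FW_fac K (Wp n p) _ hK (Wp_one n p (by omega))
        (half K (Wp n p) hK (Wp_one n p (by omega))).1).le
    · intro p hp
      obtain ⟨hp2, -⟩ := hP hp
      exact (half K (Wp n p) hK (Wp_one n p (by omega))).2
  have hlim : Tendsto (fun N : ℕ => K * (1 / 2 : ℝ) ^ N) atTop (𝓝 (K * 0)) :=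
    (tendsto_pow_atTop_nhds_zero_of_lt_one (by norm_num) (by norm_num)).const_mul K
  rw [mul_zero] at hlim
  exact ge_of_tendsto' hlim hN

end G4A
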