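import Pool.Agent.helper84.G4.Spec

/-!
# g4:MSBX Measurability and integrability (copy of gr:MSB)
-/

set_option autoImplicit false

open Complex Metric Set Filter Topology MeasureTheory
open MPS (om)
open PPS (pre TT fd)
open XPS (Df er dens tau)

noncomputable section

namespace GR

theorem MSBX (hMI : MPS.MI_stmt) : MSBX_stmt := by
  intro x n c p
  constructor
  · unfold Bx
    apply Finset.measurable_fun_sum
    intro j _
    fun_prop
  · have h1 : ∀ j : ℕ, IntegrableOn (fun w : ℂ => x j / A n c j / (w - Z n c j))
        (ball (0 : ℂ) 4) := by
      intro j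
      have h2 := (hMI.2 (Z n c j) (4 + ‖Z n c j‖) (by positivity)).1
      have h3 : ball (0 : ℂ) 4 ⊆ ball (Z n c j) (4 + ‖Z n c j‖) := by
        intro w hw
        rw [mem_ball_zero_iff] at hw
        rw [mem_ball, dist_eq_norm]
        have := norm_sub_le w (Z n c j)
        linarith
      have h4 := ((h2.mono_set h3).const_mul ‖x j / A n c j‖)
      refine Integrable.mono' h4 ?_ ?_
      · apply Measurable.aestronglyMeasurable
        fun_prop
      · apply Filter.Eventually.of_forall
        intro w
        rw [norm_div]
        exact le_of_eq (by ring)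
    have h5 : IntegrableOn (Bx x n c p) (ball (0 : ℂ) 4) := by
      unfold Bx
      exact integrable_finsetSum _ (fun j _ => h1 j)
    have h6 := h5.2
    rw [hasFiniteIntegral_iff_norm] at h6
    exact h6.ne

end GR
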