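import Pool.Agent.helper84.G4.SpecW

/-!
# g4:MULW, the multiplicative inequality with a weight
-/

set_option autoImplicit false

open Complex Metric Set Filter Topology MeasureTheory
open MPS (om)
open PPS (pre TT fd)
open XPS (Df er dens tau)

noncomputable section

namespace GR

/-- monotonicity of `(1 + log t) / t`. -/
lemma MULW_log (x y : ℝ) (hx : 1 ≤ x) (hxy : x ≤ y) :
    (1 + Real.log y) / y ≤ (1 + Real.log x) / x := by
  have hx0 : 0 < x := by linarith
  have hy0 : 0 < y := by linarith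
  have h1 : Real.log y = Real.log x + Real.log (y / x) := by
    rw [Real.log_div hy0.ne' hx0.ne']; ring
  have h2 : Real.log (y / x) ≤ y / x - 1 := Real.log_le_sub_one_of_pos (by positivity)
  have h3 : 0 ≤ Real.log x := Real.log_nonneg hx
  have h4 : 1 ≤ y / x := by rw [le_div_iff₀ hx0]; linarith
  have h5 : 1 + Real.log y ≤ y / x * (1 + Real.log x) := by
    nlinarith [mul_nonneg (sub_nonneg.2 h4) h3]
  rw [div_le_div_iff₀ hy0 hx0]
  calc (1 + Real.log y) * x ≤ y / x * (1 + Real.log x) * x := mul_le_mul_of_nonneg_right h5 hx0.le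
    _ = (1 + Real.log x) * y := by field_simp

/-- the previous closest return. -/
lemma MULW_ret (n : ℕ) (c : ℂ) (hn : 2 ≤ n) (hc : ‖c‖ ≤ 2) (hle : ∀ j, ‖Z n c j‖ ≤ 2)
    (hne : ∀ j, 1 ≤ j → Z n c j ≠ 0) (p : ℕ) (hp : 2 ≤ p) (x : ℝ) (hx : 1 < x)
    (hr : ∀ j, 1 ≤ j → j < p → x * ‖Z n c p‖ ≤ ‖Z n c j‖) :
    ∃ q, Ret n c p q ∧ x ≤ X n c p q := by
  obtain ⟨q, hq, hmin⟩ := Finset.exists_min_image (Finset.Icc 1 (p - 1)) (fun j => ‖Z n c j‖)
    ⟨1, Finset.mem_Icc.2 ⟨le_refl _, by omega⟩⟩
  rw [Finset.mem_Icc] at hq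
  have hpp : 0 < ‖Z n c p‖ := norm_pos_iff.2 (hne p (by omega))
  have hq2 : x * ‖Z n c p‖ ≤ ‖Z n c q‖ := hr q hq.1 (by omega)
  have hlt : ‖Z n c p‖ < ‖Z n c q‖ := by nlinarith
  refine ⟨q, ?_, ?_⟩
  · exact
      { hn := hn
        hc := hc
        le2 := fun j _ _ => hle j
        ne0 := fun j hj _ => hne j hj
        q1 := hq.1
        qp := by omega
        mn := fun j hj1 hj2 => hmin j (Finset.mem_Icc.2 ⟨hj1, by omega⟩)
        lt := hlt }
  · rw [X, le_div_iff₀ hpp]
    exact hq2

/-- the induction: on a finite set of deep returns. -/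
theorem MULW_ind (K₀ K₁ : ℝ) (hK₀ : 1 ≤ K₀) (hK₁ : 1 ≤ K₁) (W : ℕ → ℝ) (hW : ∀ p, 1 ≤ W p) (n : ℕ) (c : ℂ)
    (hn : 2 ≤ n) (hc : ‖c‖ ≤ 2)
    (hle : ∀ j, ‖Z n c j‖ ≤ 2) (hne : ∀ j, 1 ≤ j → Z n c j ≠ 0)
    (hww : ∀ p q, Ret n c p q → 0 ≤ ww n c p q)
    (hcor : ∀ p q, Ret n c p q →
      X n c p q ≤ K₀ * W p * max 1 (ww n c p q) * (1 + Real.log (X n c p q)))
    (hcst : ∀ p q j i, Ret n c p q → Ret n c j i → j ≤ q → 2 ≤ X n c j i → 0 < ww n c j i →
      X n c p q ≤ K₁ * W p * (1 + ww n c p q / ww n c j i) * (1 + Real.log (X n c p q)))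
    (x : ℕ → ℝ) (s : Finset ℕ)
    (hs : ∀ p ∈ s, 2 ≤ p ∧ 2 ≤ x p ∧ (K₀ + 2 * K₁) * W p * (1 + Real.log (x p)) / x p < 1 ∧
      ∀ j, 1 ≤ j → j < p → x p * ‖Z n c p‖ ≤ ‖Z n c j‖) :
    ∀ p ∈ s, (∀ l ∈ s, l ≤ p) → ∀ q, Ret n c p q → x p ≤ X n c p q →
      1 ≤ ww n c p q * ∏ l ∈ s, ((K₀ + 2 * K₁) * W l * (1 + Real.log (x l)) / x l) := by
  classical
  set K : ℝ := K₀ + 2 * K₁ with hK
  have hK1 : 1 ≤ K := by linarith
  induction s using Finset.induction_on_max with
  | empty => intro p hp; simp at hp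
  | insert a s has ih =>
    intro p hp hmax q hR hxX
    have ha : a ∉ s := fun h => lt_irrefl _ (has a h)
    have hpa : p = a := by
      rcases Finset.mem_insert.1 hp with h | h
      · exact h
      · exact absurd (hmax a (Finset.mem_insert_self _ _)) (not_le.2 (has p h))
    subst hpa
    obtain ⟨hp2, hx2, hdeep, hret⟩ := hs p (Finset.mem_insert_self _ _)
    rw [Finset.prod_insert ha]
    have hx1 : 1 ≤ x p := by linarith
    have hX1 : 1 ≤ X n c p q := by linarith
    have hXpos : 0 < X n c p q := by linarith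
    have hlX : 0 ≤ Real.log (X n c p q) := Real.log_nonneg hX1
    have hw0 := hww p q hR
    have hWp := hW p
    have hKWp : 0 ≤ K * W p := mul_nonneg (by linarith) (by linarith)
    -- t = K W (1 + log x) / x < 1, T = K W (1 + log X)/X ≤ t
    set t : ℝ := K * W p * (1 + Real.log (x p)) / x p with ht
    set T : ℝ := K * W p * (1 + Real.log (X n c p q)) / X n c p q with hT
    have hTt : T ≤ t := by
      rw [hT, ht, mul_div_assoc, mul_div_assoc]
      exact mul_le_mul_of_nonneg_left (MULW_log (x p) (X n c p q) hx1 hxX) hKWp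
    have hTpos : 0 < T := by
      rw [hT]
      positivity
    have hT1 : T < 1 := lt_of_le_of_lt hTt hdeep
    have hTX : T * X n c p q = K * W p * (1 + Real.log (X n c p q)) := by
      rw [hT, div_mul_cancel₀ _ hXpos.ne']
    rcases s.eq_empty_or_nonempty with h0 | h0
    · rw [h0, Finset.prod_empty, mul_one]
      have h1 := hcor p q hR
      -- 1 ≤ max 1 w * T
      have h2 : X n c p q ≤ max 1 (ww n c p q) * (T * X n c p q) := by
        rw [hTX]
        calc X n c p q ≤ K₀ * W p * max 1 (ww n c p q) * (1 + Real.log (X n c p q)) := h1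
          _ ≤ K * W p * max 1 (ww n c p q) * (1 + Real.log (X n c p q)) := by
            have : 0 ≤ max 1 (ww n c p q) := le_trans zero_le_one (le_max_left _ _)
            gcongr
            linarith
          _ = _ := by ring
      have h3 : 1 ≤ max 1 (ww n c p q) * T := by
        by_contra hcon
        push Not at hcon
        nlinarith
      rcases le_or_gt (ww n c p q) 1 with h4 | h4
      · rw [max_eq_left h4, one_mul] at h3
        linarith
      · rw [max_eq_right h4.le] at h3
        calc 1 ≤ ww n c p q * T := h3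
          _ ≤ ww n c p q * t := mul_le_mul_of_nonneg_left hTt hw0
    · -- the previous deep return
      set j := s.max' h0 with hj
      have hjs : j ∈ s := Finset.max'_mem s h0
      obtain ⟨hj2, hxj2, hdeepj, hretj⟩ := hs j (Finset.mem_insert_of_mem hjs)
      obtain ⟨i, hR', hxX'⟩ := MULW_ret n c hn hc hle hne j hj2 (x j) (by linarith) hretj
      have hih := ih (fun l hl => hs l (Finset.mem_insert_of_mem hl)) j hjs
        (fun l hl => Finset.le_max' s l hl) i hR' hxX'
      have hpos : 0 < ∏ l ∈ s, (K * W l * (1 + Real.log (x l)) / x l) := by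
        apply Finset.prod_pos
        intro l hl
        obtain ⟨-, hxl, -, -⟩ := hs l (Finset.mem_insert_of_mem hl)
        have h1 : 0 ≤ Real.log (x l) := Real.log_nonneg (by linarith)
        have h2 : 0 < x l := by linarith
        have h3 : 0 < W l := lt_of_lt_of_le one_pos (hW l)
        positivity
      set Q : ℝ := ∏ l ∈ s, (K * W l * (1 + Real.log (x l)) / x l) with hQ
      have hwj : 0 < ww n c j i := by
        by_contra hcon
        push Not at hcon
        nlinarith
      have hjp : j < p := has j hjs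
      have hjq : j ≤ q := by
        by_contra hcon
        push Not at hcon
        -- q < j, so x j ‖Z j‖ ≤ ‖Z q‖ ≤ ‖Z j‖
        have h1 := hretj q hR.q1 hcon
        have h2 := hR.mn j (by omega) hjp
        have h3 : 0 < ‖Z n c j‖ := norm_pos_iff.2 (hne j (by omega))
        nlinarith
      have h1 := hcst p q j i hR hR' hjq (by linarith) hwj
      set ρ : ℝ := ww n c p q / ww n c j i with hρ
      have hρ0 : 0 ≤ ρ := by positivity
      have hρw : ρ * ww n c j i = ww n c p q := by
        rw [hρ, div_mul_cancel₀ _ hwj.ne']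
      -- X ≤ K₁ (1 + ρ) (1 + log X) and T < 1 give 1 ≤ ρ T
      have h2 : 1 ≤ ρ * T := by
        have e1 : K₁ * W p * (1 + ρ) * (1 + Real.log (X n c p q)) ≤ (1 + ρ) / 2 * (T * X n c p q) := by
          rw [hTX]
          have : K₁ ≤ K / 2 := by linarith
          calc K₁ * W p * (1 + ρ) * (1 + Real.log (X n c p q)) ≤
              K / 2 * W p * (1 + ρ) * (1 + Real.log (X n c p q)) := by gcongr
            _ = _ := by ring
        have e2 : X n c p q * 1 ≤ X n c p q * ((1 + ρ) / 2 * T) := by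
          calc X n c p q * 1 = X n c p q := mul_one _
            _ ≤ _ := h1.trans e1
            _ = _ := by ring
        have e3 := le_of_mul_le_mul_left e2 hXpos
        nlinarith
      calc (1 : ℝ) = 1 * 1 := (mul_one 1).symm
        _ ≤ (ρ * T) * (ww n c j i * Q) := mul_le_mul h2 hih zero_le_one (by positivity)
        _ = ww n c p q * (T * Q) := by rw [← hρw]; ring
        _ ≤ ww n c p q * (t * Q) := by
          apply mul_le_mul_of_nonneg_left _ hw0
          exact mul_le_mul_of_nonneg_right hTt hpos.le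

theorem MULW (hNAT : NAT_stmt) (Wt : ℕ → ℂ → ℕ → ℝ) (n₀ : ℕ) (hn₀ : 2 ≤ n₀) (hWt : ∀ n c p, 1 ≤ Wt n c p)
    (hCOR3 : CRW Wt n₀) (hCST : CSW Wt n₀) : MUW Wt n₀ := by
  classical
  obtain ⟨K₀, hK₀, hcor⟩ := hCOR3
  obtain ⟨K₁, hK₁, hcst⟩ := hCST
  refine ⟨2 * (K₀ + 2 * K₁), by linarith, ?_⟩
  intro n hn c M hc hle hne hM hMw P x hP
  have hn2 : 2 ≤ n := by omega
  obtain ⟨-, -, -, -, -, -, -, -, -, -, hnat⟩ := hNAT n c hn2
  have hww : ∀ p q, Ret n c p q → 0 ≤ ww n c p q := by
    intro p q hR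
    obtain ⟨hR0, hR2, hX1, hRX, hA0, -, -⟩ := hnat p q hR
    have : 0 ≤ Real.log (X n c p q) := Real.log_nonneg hX1.le
    unfold ww
    positivity
  set K : ℝ := K₀ + 2 * K₁ with hK
  have hK3 : 3 ≤ K := by linarith
  set W : ℕ → ℝ := fun p => Wt n c p with hW
  have hW1 : ∀ p, 1 ≤ W p := fun p => hWt n c p
  -- the deep returns
  set P' : Finset ℕ := P.filter (fun p => K * W p * (1 + Real.log (x p)) / x p < 1) with hP'
  have hfac : ∀ p ∈ P, 0 < K * W p * (1 + Real.log (x p)) / x p := by
    intro p hp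
    obtain ⟨-, h1, -⟩ := hP p hp
    have : 0 ≤ Real.log (x p) := Real.log_nonneg h1
    have : 0 < W p := lt_of_lt_of_le one_pos (hW1 p)
    positivity
  have hprod : ∏ p ∈ P', (K * W p * (1 + Real.log (x p)) / x p) ≤
      ∏ p ∈ P, (2 * K * W p * (1 + Real.log (x p)) / x p) := by
    calc ∏ p ∈ P', (K * W p * (1 + Real.log (x p)) / x p)
        ≤ ∏ p ∈ P', (2 * K * W p * (1 + Real.log (x p)) / x p) := by
          apply Finset.prod_le_prod
          · intro p hp
            exact (hfac p (Finset.mem_filter.1 hp).1).le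
          · intro p hp
            have := hfac p (Finset.mem_filter.1 hp).1
            have e : 2 * K * W p * (1 + Real.log (x p)) / x p = 2 * (K * W p * (1 + Real.log (x p)) / x p) := by
              ring
            rw [e]
            linarith
      _ ≤ ∏ p ∈ P, (2 * K * W p * (1 + Real.log (x p)) / x p) := by
          rw [← Finset.prod_filter_mul_prod_filter_not P
            (fun p => K * W p * (1 + Real.log (x p)) / x p < 1), ← hP']
          have h1 : 1 ≤ ∏ p ∈ P.filter (fun p => ¬ K * W p * (1 + Real.log (x p)) / x p < 1),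
              (2 * K * W p * (1 + Real.log (x p)) / x p) := by
            apply Finset.prod_induction _ (fun t : ℝ => 1 ≤ t)
              (fun a b ha hb => one_le_mul_of_one_le_of_one_le ha hb) le_rfl
            intro p hp
            have h1 := (Finset.mem_filter.1 hp).2
            have e : 2 * K * W p * (1 + Real.log (x p)) / x p = 2 * (K * W p * (1 + Real.log (x p)) / x p) := by
              ring
            rw [e]
            linarith
          have h2 : 0 ≤ ∏ p ∈ P', (2 * K * W p * (1 + Real.log (x p)) / x p) := by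
            apply Finset.prod_nonneg
            intro p hp
            have := hfac p (Finset.mem_filter.1 hp).1
            have e : 2 * K * W p * (1 + Real.log (x p)) / x p = 2 * (K * W p * (1 + Real.log (x p)) / x p) := by
              ring
            rw [e]
            linarith
          exact le_mul_of_one_le_right h2 h1
  have hxP' : ∀ p ∈ P', 2 ≤ p ∧ 2 ≤ x p ∧ K * W p * (1 + Real.log (x p)) / x p < 1 ∧
      ∀ j, 1 ≤ j → j < p → x p * ‖Z n c p‖ ≤ ‖Z n c j‖ := by
    intro p hp
    obtain ⟨hp, hd⟩ := Finset.mem_filter.1 hp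
    obtain ⟨h1, h2, h3⟩ := hP p hp
    refine ⟨h1, ?_, hd, h3⟩
    have h4 : 0 ≤ Real.log (x p) := Real.log_nonneg h2
    rw [div_lt_one (by linarith)] at hd
    have h5 : 3 * 1 * (1 + 0) ≤ K * W p * (1 + Real.log (x p)) := by
      have := hW1 p
      gcongr
    linarith
  rcases P'.eq_empty_or_nonempty with h0 | h0
  · rw [h0, Finset.prod_empty] at hprod
    nlinarith
  · set p := P'.max' h0 with hp
    have hps : p ∈ P' := Finset.max'_mem P' h0
    obtain ⟨hp2, hxp2, hd, hret⟩ := hxP' p hps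
    obtain ⟨q, hR, hxX⟩ := MULW_ret n c hn2 hc hle hne p hp2 (x p) (by linarith) hret
    have h1 := MULW_ind K₀ K₁ hK₀ hK₁ W hW1 n c hn2 hc hle hne hww (hcor n hn c) (hcst n hn c) x P' hxP' p hps
      (fun l hl => Finset.le_max' P' l hl) q hR hxX
    have h2 := hMw p q hR (by linarith)
    have h3 : 0 < ∏ p ∈ P', (K * W p * (1 + Real.log (x p)) / x p) :=
      Finset.prod_pos fun p hp => hfac p (Finset.mem_filter.1 hp).1
    calc 1 ≤ ww n c p q * ∏ l ∈ P', (K * W l * (1 + Real.log (x l)) / x l) := h1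
      _ ≤ M * ∏ l ∈ P', (K * W l * (1 + Real.log (x l)) / x l) := mul_le_mul_of_nonneg_right h2 h3.le
      _ ≤ M * ∏ p ∈ P, (2 * K * W p * (1 + Real.log (x p)) / x p) :=
        mul_le_mul_of_nonneg_left hprod (by linarith)

end GR
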