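import Pool.Agent.helper54.GR3.Spec

/-!
# Project g4: (MP_af9036_an x25, MP_70a088_an x10): the multiplicative form of Theorem G (closest returns), `n ≥ 3`

Paper: /team-store/MP_af9036_Gstar_helper84.md (addition to /team-store/MP_af9036_G_helper88.md, /team-store/MP_af9036_G3_helper54.md).

THEOREM. There is an absolute constant `K` such that for `n ≥ 3`, `c ∈ M_n`, every finite set `P` of times `p ≥ 2` and all `x p ≥ 1` with `x p * ‖Z p‖ ≤ ‖Z j‖` (`1 ≤ j < p`, `p ∈ P`):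
`dist(c, H_n) ≤ K * ∏ p ∈ P, K (1 + log (x p))/x p`. The same for `‖a(c)‖` for an invariant line field. In particular (`x p = K₀`, infinitely many `p`): if the ratios of the closest returns are `≥ K₀` infinitely often then `c ∈ closure(H_n)`.

NEW IDEA: the term `(S p - λ S q)/(z - c)` of the error is removed with an earlier pair of closest returns `(j, i)`, `i < j ≤ q`.
-/

set_option autoImplicit false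

open Complex Metric Set Filter Topology MeasureTheory
open MPS (om)
open PPS (pre TT fd)
open XPS (Df er dens tau)
open Pool.Agent.helper16.Multibrot

noncomputable section

namespace GR

/-- the differential with the residues `x j / A j`. -/
def Bx (x : ℕ → ℂ) (n : ℕ) (c : ℂ) (p : ℕ) (w : ℂ) : ℂ := ∑ j ∈ Finset.Icc 1 p, x j / A n c j / (w - Z n c j)

/-- `Bx` in the coordinate `y` of the cell `j₀`. -/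
def Bhx (x : ℕ → ℂ) (C : ℝ) (n : ℕ) (c : ℂ) (p q j₀ : ℕ) (y : ℂ) : ℂ :=
  (ss C n c p q j₀ : ℂ) * A n c j₀ * Bx x n c p (Z n c j₀ + (ss C n c p q j₀ : ℂ) * y)

/-- the coefficients of `B_p - λ B_q - ν (B_j - λ' B_i)`. -/
def x4 (n : ℕ) (c : ℂ) (p q j i : ℕ) (ν : ℂ) (l : ℕ) : ℂ :=
  1 - (if l ≤ q then lam n c p q else 0) - (if l ≤ j then ν else 0) + (if l ≤ i then ν * lam n c j i else 0)

/-- `w_p = |u_p - u_q| / (1 + log X)`, `u_l = A_l S_l / Z_l`. -/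
def ww (n : ℕ) (c : ℂ) (p q : ℕ) : ℝ :=
  ‖S n c p - lam n c p q * S n c q‖ / ((‖Z n c p‖ / ‖A n c p‖) * (1 + Real.log (X n c p q)))

/-- MSBX. Copy of MSB. -/
def MSBX_stmt : Prop := ∀ (x : ℕ → ℂ) (n : ℕ) (c : ℂ) (p : ℕ), Measurable (Bx x n c p) ∧
  ∫⁻ z in ball (0 : ℂ) 4, ENNReal.ofReal ‖Bx x n c p z‖ ≠ ⊤

/-- AZ: KNV for `G (p - l)` at `Z p`, for all `l < p`. -/
def AZ_stmt : Prop := ∀ (C : ℝ) (n : ℕ) (c : ℂ) (p q : ℕ) (G : ℕ → ℂ → ℂ), KQ C → Ret n c p q → Tow n c p q G →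
  16 * C ≤ X n c p q → ∀ l, 1 ≤ l → l < p → ‖A n c l‖ * R n c q ≤ 2 * C * ‖A n c p‖ * ‖Z n c l‖

/-- MD4: the local form of `Bx` at the cells `i` and `k`. Copy of MD3. -/
def MD4_stmt : Prop := ∀ (x : ℕ → ℂ) (C : ℝ) (n : ℕ) (c : ℂ) (p q : ℕ) (G : ℕ → ℂ → ℂ), KQ C → Ret n c p q →
  Tow n c p q G → 16 * C ≤ X n c p q → (∀ j ∈ Finset.Icc 1 p, ‖x j‖ ≤ 2) →
  ∃ i ∈ Finset.Icc 1 p, ∃ k ∈ Finset.Icc 1 p, ∃ (a b P μ : ℂ) (l : ℝ),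
    1 ≤ l ∧ l ≤ ‖P‖ ∧ 2 ≤ ‖P‖ ∧ ‖μ‖ = l ^ 2 ∧
    (∀ y : ℂ, 0 < ‖y‖ → ‖y‖ ≤ 1 / 2 → ‖Bhx x C n c p q i y - x i / y - a - b * y‖ ≤ 2000 * ‖y‖ ^ 2) ∧
    ∀ y : ℂ, 0 < ‖y‖ → ‖y‖ ≤ 1 / 2 →
      ‖Bhx x C n c p q k y - x k / y - μ * (a + b * (P + (l : ℂ) * y))‖ ≤ 2000 * l ^ 2 / ‖P‖

/-- SCAX. Copy of SCA. -/
def SCAX_stmt : Prop := ∀ (x : ℕ → ℂ) (C : ℝ) (n : ℕ) (c : ℂ) (p q : ℕ) (G : ℕ → ℂ → ℂ) (j₀ : ℕ), KQ C → Ret n c p q →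
  Tow n c p q G → j₀ ∈ Finset.Icc 1 p → ∃ θ : ℂ, ‖θ‖ = sg C n c p q / R n c q ^ 2 ∧ 0 < sg C n c p q ∧ ∀ u ∈ ball (0 : ℂ) 1,
    tau (Bx x n c p) G (p - j₀) ((R n c q : ℂ) * u) =
      θ * (Bhx x C n c p q j₀ (gg C n c p q j₀ G u) * deriv (gg C n c p q j₀ G) u ^ 2)

/-- CHNX. Copy of CHN, for every `b`. -/
def CHNX_stmt : Prop := ∀ (C : ℝ) (n : ℕ) (c : ℂ) (p q : ℕ) (G : ℕ → ℂ → ℂ) (b : ℂ → ℂ) (E : ℝ), KQ C → Ret n c p q →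
  Tow n c p q G → 16 * C ≤ X n c p q → Measurable (Df (fp n c) b) → Measurable (er (fp n c) b) →
  Eg n c b E → ∀ m₀ < p, ∫⁻ w in ball (0 : ℂ) (R n c q / (8 * C)), ENNReal.ofReal
    (‖tau b G m₀ w‖ + ‖tau b G 0 w - tau b G m₀ w‖ - ‖tau b G 0 w‖) ≤
      ENNReal.ofReal E

/-- CHPX. Copy of CHP. -/
def CHPX_stmt : Prop := ∀ (C : ℝ) (n : ℕ) (c : ℂ) (p q : ℕ) (G : ℕ → ℂ → ℂ) (b : ℂ → ℂ) (E : ℝ), KQ C → Ret n c p q →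
  Tow n c p q G → 16 * C ≤ X n c p q → Measurable b → Measurable (Df (fp n c) b) → Measurable (er (fp n c) b) →
  Eg n c b E → ∀ m < p, ∀ m' < p, ∫⁻ w in ball (0 : ℂ) (R n c q / (8 * C)), ENNReal.ofReal
    (‖tau b G m w‖ + ‖tau b G m' w‖ - ‖tau b G m w + tau b G m' w‖) ≤
      2 * ENNReal.ofReal E

/-- SYMX. Copy of SYM. -/
def SYMX_stmt : Prop := ∀ (C : ℝ) (n : ℕ) (c : ℂ) (p q : ℕ) (G : ℕ → ℂ → ℂ) (b : ℂ → ℂ) (E : ℝ), KQ C → Ret n c p q →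
  Tow n c p q G → 16 * C ≤ X n c p q → Measurable b → Measurable (Df (fp n c) b) → Measurable (er (fp n c) b) →
  Eg n c b E → ∀ m₀ < p, ∫⁻ w in ball (0 : ℂ) (R n c q / (8 * C)), ENNReal.ofReal
    (∑ k ∈ Finset.range n, ‖tau b G m₀ (om n ^ k * w)‖ -
      ‖∑ k ∈ Finset.range n, om n ^ (2 * k) * tau b G m₀ (om n ^ k * w)‖) ≤ 2 * n * ENNReal.ofReal E

/-- GCO: the general Core Theorem. -/
def GCO_stmt : Prop := ∃ K : ℝ, 1 ≤ K ∧ ∀ n : ℕ, 3 ≤ n → ∀ (c : ℂ) (p q : ℕ) (x : ℕ → ℂ) (ε : ℝ), Ret n c p q →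
  K ≤ X n c p q → 0 ≤ ε → (∀ j ∈ Finset.Icc 1 p, ‖x j - 1‖ ≤ 1 / K) →
  ∫⁻ z in ball (0 : ℂ) 4, ENNReal.ofReal ‖er (fp n c) (Bx x n c p) z‖ ≤ ENNReal.ofReal ε →
  R n c q / ‖A n c p‖ ≤ K * ε

/-- ERX: the error term of `B_p - λ B_q - ν (B_j - λ' B_i)`. -/
def ERX_stmt : Prop := ∀ (n : ℕ) (c : ℂ) (p q j i : ℕ) (ν : ℂ), Ret n c p q → Ret n c j i → j ≤ q → ∀ z : ℂ, z ≠ c →
  (∀ l, 1 ≤ l → l ≤ p + 1 → z ≠ Z n c l) →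
  er (fp n c) (Bx (x4 n c p q j i ν) n c p) z =
    (S n c p - lam n c p q * S n c q - ν * (S n c j - lam n c j i * S n c i)) / (z - c) +
    Z n c p / ((n : ℂ) * A n c p) * ((Z n c q ^ n - Z n c p ^ n) /
      ((z - c) * (z - c - Z n c p ^ n) * (z - c - Z n c q ^ n))) -
    ν * (Z n c j / ((n : ℂ) * A n c j) * ((Z n c i ^ n - Z n c j ^ n) /
      ((z - c) * (z - c - Z n c j ^ n) * (z - c - Z n c i ^ n))))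

/-- ERI4: the integral of the error. -/
def ERI4_stmt : Prop := ∃ C : ℝ, 0 < C ∧ ∀ (n : ℕ) (c : ℂ) (p q j i : ℕ) (ν : ℂ), Ret n c p q → Ret n c j i → j ≤ q →
  2 ≤ X n c p q → 2 ≤ X n c j i →
  ν * (S n c j - lam n c j i * S n c i) = S n c p - lam n c p q * S n c q →
  ∫⁻ z in ball (0 : ℂ) 4, ENNReal.ofReal ‖er (fp n c) (Bx (x4 n c p q j i ν) n c p) z‖ ≤
    ENNReal.ofReal (C * (‖Z n c p‖ / ‖A n c p‖ * (1 + Real.log (X n c p q)) +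
      ‖ν‖ * (‖Z n c j‖ / ‖A n c j‖ * (1 + Real.log (X n c j i)))))

/-- CST: the Core Theorem without `κ`. -/
def CST_stmt : Prop := ∃ K : ℝ, 1 ≤ K ∧ ∀ n : ℕ, 3 ≤ n → ∀ (c : ℂ) (p q j i : ℕ), Ret n c p q → Ret n c j i → j ≤ q →
  2 ≤ X n c j i → 0 < ww n c j i →
  X n c p q ≤ K * (1 + ww n c p q / ww n c j i) * (1 + Real.log (X n c p q))

/-- MUL: the multiplicative inequality. -/
def MUL_stmt : Prop := ∃ K : ℝ, 1 ≤ K ∧ ∀ n : ℕ, 3 ≤ n → ∀ (c : ℂ) (M : ℝ), ‖c‖ ≤ 2 → (∀ j, ‖Z n c j‖ ≤ 2) →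
  (∀ j, 1 ≤ j → Z n c j ≠ 0) → 1 ≤ M → (∀ p q, Ret n c p q → 2 ≤ X n c p q → ww n c p q ≤ M) →
  ∀ (P : Finset ℕ) (x : ℕ → ℝ), (∀ p ∈ P, 2 ≤ p ∧ 1 ≤ x p ∧ ∀ j, 1 ≤ j → j < p → x p * ‖Z n c p‖ ≤ ‖Z n c j‖) →
  1 ≤ M * ∏ p ∈ P, (K * (1 + Real.log (x p)) / x p)

/-- G4: the multiplicative Theorem G. -/
def G4_stmt : Prop := ∃ K : ℝ, ∀ n : ℕ, 3 ≤ n → ∀ c ∈ multibrot n, ∀ (P : Finset ℕ) (x : ℕ → ℝ),
  (∀ p ∈ P, 2 ≤ p ∧ 1 ≤ x p ∧ ∀ j, 1 ≤ j → j < p → x p * ‖Z n c p‖ ≤ ‖Z n c j‖) →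
  Metric.infDist c (hyperbolic n) ≤ K * ∏ p ∈ P, (K * (1 + Real.log (x p)) / x p)

/-- GL4: the multiplicative Theorem G for line fields. -/
def GL4_stmt : Prop := ∃ K : ℝ, ∀ n : ℕ, 3 ≤ n → ∀ (c : ℂ) (μ : ℂ → ℂ),
  Pool.Agent.helper98.ILF.IsInvariantLineField (fun z : ℂ => z ^ n + c) μ → ∀ (P : Finset ℕ) (x : ℕ → ℝ),
  (∀ p ∈ P, 2 ≤ p ∧ 1 ≤ x p ∧ ∀ j, 1 ≤ j → j < p → x p * ‖Z n c p‖ ≤ ‖Z n c j‖) →
  ‖∫ z : ℂ, μ z / (z - c)‖ ≤ K * ∏ p ∈ P, (K * (1 + Real.log (x p)) / x p)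

end GR
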